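import Mathlib

/-!
# Bishop-Phelps theorem for closed convex sets

If `φ` is almost maximal at the point `y` of the closed convex set `C`, then a functional near `φ` attains its
maximum over `C` at a point near `y`.
-/

set_option autoImplicit false

namespace Pool.Agent.J6H34.RT

open Set Filter Topology

theorem bp_set {W : Type*} [NormedAddCommGroup W] [NormedSpace ℝ W] [CompleteSpace W]
    {C : Set W} (hC : Convex ℝ C) (hCc : IsClosed C) (Φ₀ : W →L[ℝ] ℝ) {ε δ : ℝ} (hε : 0 < ε)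
    {y₀ : W} (hy₀ : y₀ ∈ C) (hδ : ∀ z ∈ C, Φ₀ z ≤ Φ₀ y₀ + δ) :
    ∃ Φ : W →L[ℝ] ℝ, ‖Φ - Φ₀‖ ≤ ε ∧ ∃ y ∈ C, ε * ‖y - y₀‖ ≤ δ ∧ ∀ z ∈ C, Φ z ≤ Φ y := by
  classical
  -- successor relation
  let S : W → Set W := fun y => {z | z ∈ C ∧ ε * ‖z - y‖ ≤ Φ₀ z - Φ₀ y}
  have hbd : ∀ z : W, z ∈ C → Φ₀ z ≤ Φ₀ y₀ + δ := hδ
  have hrefl : ∀ y : W, y ∈ C → y ∈ S y := by
    intro y hy
    exact ⟨hy, by simp⟩
  have htrans : ∀ x y z : W, y ∈ S x → z ∈ S y → z ∈ S x := by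
    rintro x y z ⟨_, h1⟩ ⟨hz, h2⟩
    refine ⟨hz, ?_⟩
    have h3 : ‖z - x‖ ≤ ‖z - y‖ + ‖y - x‖ := by
      have : z - x = (z - y) + (y - x) := by abel
      rw [this]; exact norm_add_le _ _
    nlinarith [mul_le_mul_of_nonneg_left h3 hε.le]
  -- almost maximal successor
  have hstep : ∀ (y : {y : W // y ∈ C}) (n : ℕ), ∃ z : {z : W // z ∈ C},
      (z : W) ∈ S y ∧ ∀ w ∈ S (y : W), Φ₀ w ≤ Φ₀ (z : W) + (1 / 2 : ℝ) ^ n := by
    intro y n
    have hne : (Φ₀ '' S (y : W)).Nonempty := ⟨_, _, hrefl y y.2, rfl⟩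
    have hbdd : BddAbove (Φ₀ '' S (y : W)) := by
      refine ⟨Φ₀ y₀ + δ, ?_⟩
      rintro _ ⟨w, hw, rfl⟩
      exact hbd w hw.1
    have hpos : (0 : ℝ) < (1 / 2 : ℝ) ^ n := by positivity
    obtain ⟨_, ⟨z, hz, rfl⟩, hz2⟩ := exists_lt_of_lt_csSup hne
      (show sSup (Φ₀ '' S (y : W)) - (1 / 2 : ℝ) ^ n < sSup (Φ₀ '' S (y : W)) by linarith)
    refine ⟨⟨z, hz.1⟩, hz, fun w hw => ?_⟩
    have := le_csSup hbdd (Set.mem_image_of_mem Φ₀ hw)
    simp only
    linarith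
  choose nxt hnxt1 hnxt2 using hstep
  let y : ℕ → {y : W // y ∈ C} := fun n =>
    Nat.rec (motive := fun _ => {y : W // y ∈ C}) ⟨y₀, hy₀⟩ (fun k yk => nxt yk k) n
  have hy1 : ∀ n : ℕ, (y (n + 1)).1 ∈ S (y n).1 := fun n => hnxt1 (y n) n
  have hy2 : ∀ n : ℕ, ∀ w ∈ S (y n).1, Φ₀ w ≤ Φ₀ (y (n + 1)).1 + (1 / 2 : ℝ) ^ n :=
    fun n => hnxt2 (y n) n
  have hmn : ∀ n k : ℕ, (y (n + k)).1 ∈ S (y n).1 := by
    intro n k
    induction k with
    | zero => exact hrefl _ (y n).2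
    | succ k ih => exact htrans _ _ _ ih (hy1 (n + k))
  -- Cauchy
  have hmono : Monotone (fun n : ℕ => Φ₀ (y n).1) := by
    apply monotone_nat_of_le_succ
    intro n
    have h := (hy1 n).2
    have h' : 0 ≤ ε * ‖(y (n + 1)).1 - (y n).1‖ := by positivity
    linarith
  have hbddr : BddAbove (Set.range (fun n : ℕ => Φ₀ (y n).1)) := by
    refine ⟨Φ₀ y₀ + δ, ?_⟩
    rintro _ ⟨n, rfl⟩
    exact hbd _ (y n).2
  have hlimΦ := tendsto_atTop_ciSup hmono hbddr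
  have hcauΦ : CauchySeq (fun n : ℕ => Φ₀ (y n).1) := hlimΦ.cauchySeq
  have hcau : CauchySeq (fun n : ℕ => (y n).1) := by
    rw [Metric.cauchySeq_iff'] at hcauΦ ⊢
    intro δ hδ
    obtain ⟨N, hN⟩ := hcauΦ (ε * δ) (by positivity)
    refine ⟨N, fun n hn => ?_⟩
    have h1 := hN n hn
    obtain ⟨k, rfl⟩ := Nat.exists_eq_add_of_le hn
    have h2 := (hmn N k).2
    rw [Real.dist_eq] at h1
    rw [dist_eq_norm]
    have h3 := le_abs_self (Φ₀ (y (N + k)).1 - Φ₀ (y N).1)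
    have h4 : ε * ‖(y (N + k)).1 - (y N).1‖ < ε * δ := by linarith
    exact lt_of_mul_lt_mul_left h4 hε.le
  obtain ⟨y0, hy0⟩ := cauchySeq_tendsto_of_complete hcau
  have hy0B : y0 ∈ C := hCc.mem_of_tendsto hy0 (Eventually.of_forall fun n => (y n).2)
  have hy0S : ∀ n : ℕ, y0 ∈ S (y n).1 := by
    intro n
    refine ⟨hy0B, ?_⟩
    have hsh : Filter.Tendsto (fun k : ℕ => (y (n + k)).1) Filter.atTop (nhds y0) := by
      have := (Filter.tendsto_add_atTop_iff_nat (f := fun n => (y n).1) n).2 hy0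
      simpa [add_comm] using this
    have h1 : Filter.Tendsto (fun k => ε * ‖(y (n + k)).1 - (y n).1‖) Filter.atTop
        (nhds (ε * ‖y0 - (y n).1‖)) := by
      exact ((hsh.sub_const _).norm).const_mul _
    have h2 : Filter.Tendsto (fun k => Φ₀ (y (n + k)).1 - Φ₀ (y n).1) Filter.atTop
        (nhds (Φ₀ y0 - Φ₀ (y n).1)) := by
      exact ((Φ₀.continuous.tendsto y0).comp hsh).sub_const _
    exact le_of_tendsto_of_tendsto' h1 h2 (fun k => (hmn n k).2)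
  have hmax : ∀ z : W, z ∈ C → Φ₀ z - Φ₀ y0 ≤ ε * ‖z - y0‖ := by
    intro z hz
    by_contra hcon
    push Not at hcon
    have hzS : z ∈ S y0 := ⟨hz, hcon.le⟩
    have h1 : ∀ n, Φ₀ z ≤ Φ₀ (y (n + 1)).1 + (1 / 2 : ℝ) ^ n := fun n =>
      hy2 n z (htrans _ _ _ (hy0S n) hzS)
    have h2 : Filter.Tendsto (fun n : ℕ => Φ₀ (y (n + 1)).1 + (1 / 2 : ℝ) ^ n) Filter.atTop
        (nhds (Φ₀ y0 + 0)) := by
      refine Filter.Tendsto.add ?_ (tendsto_pow_atTop_nhds_zero_of_lt_one (by norm_num) (by norm_num))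
      exact (Φ₀.continuous.tendsto y0).comp ((Filter.tendsto_add_atTop_iff_nat 1).2 hy0)
    have h3 : Φ₀ z ≤ Φ₀ y0 + 0 := ge_of_tendsto' h2 h1
    have h4 : 0 ≤ ε * ‖z - y0‖ := by positivity
    linarith
  -- Hahn-Banach
  let A : Set (W × ℝ) := {p | ε * ‖p.1‖ < p.2}
  let D : Set (W × ℝ) := {p | p.1 + y0 ∈ C ∧ p.2 ≤ Φ₀ p.1}
  have hAopen : IsOpen A := by
    apply isOpen_lt
    · fun_prop
    · fun_prop
  have hAconv : Convex ℝ A := by
    rintro ⟨v, s⟩ hv ⟨w, t⟩ hw a b ha hb hab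
    simp only [A, Set.mem_ofPred_eq] at hv hw ⊢
    simp only [Prod.smul_mk, Prod.mk_add_mk, smul_eq_mul]
    have h1 : ‖a • v + b • w‖ ≤ a * ‖v‖ + b * ‖w‖ := by
      refine (norm_add_le _ _).trans ?_
      rw [norm_smul, norm_smul, Real.norm_of_nonneg ha, Real.norm_of_nonneg hb]
    have h2 : ε * ‖a • v + b • w‖ ≤ ε * (a * ‖v‖ + b * ‖w‖) :=
      mul_le_mul_of_nonneg_left h1 hε.le
    rcases ha.eq_or_lt with h | h
    · subst h
      have hb1 : b = 1 := by linarith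
      subst hb1
      simp only [zero_mul, one_mul, zero_add] at h2 ⊢
      linarith
    · have h3 : a * (ε * ‖v‖) < a * s := mul_lt_mul_of_pos_left hv h
      have h4 : b * (ε * ‖w‖) ≤ b * t := mul_le_mul_of_nonneg_left hw.le hb
      nlinarith
  have hDconv : Convex ℝ D := by
    rintro ⟨v, s⟩ hv ⟨w, t⟩ hw a b ha hb hab
    simp only [D, Set.mem_ofPred_eq] at hv hw ⊢
    simp only [Prod.smul_mk, Prod.mk_add_mk, smul_eq_mul]
    constructor
    · have h1 : a • v + b • w + y0 = a • (v + y0) + b • (w + y0) := by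
        have : y0 = (a + b) • y0 := by rw [hab, one_smul]
        conv_lhs => rw [this]
        rw [add_smul, smul_add, smul_add]; abel
      rw [h1]
      exact hC hv.1 hw.1 ha hb hab
    · rw [map_add, map_smul, map_smul, smul_eq_mul, smul_eq_mul]
      have h3 := mul_le_mul_of_nonneg_left hv.2 ha
      have h4 := mul_le_mul_of_nonneg_left hw.2 hb
      linarith
  have hdisj : Disjoint A D := by
    rw [Set.disjoint_left]
    rintro ⟨v, t⟩ h1 ⟨h2, h3⟩
    simp only [A, Set.mem_ofPred_eq] at h1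
    simp only at h2 h3
    have h4 := hmax (v + y0) h2
    rw [map_add, add_sub_cancel_right, add_sub_cancel_right] at h4
    linarith
  obtain ⟨φ, u, hφA, hφD⟩ := geometric_hahn_banach_open hAconv hAopen hDconv hdisj
  let ψ : W →L[ℝ] ℝ := φ.comp (ContinuousLinearMap.inl ℝ W ℝ)
  set c : ℝ := φ (0, 1) with hc
  have hφ : ∀ v t, φ (v, t) = ψ v + c * t := by
    intro v t
    have : ((v, t) : W × ℝ) = (v, 0) + t • (0, 1) := by simp
    rw [this, map_add, map_smul, smul_eq_mul, mul_comm]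
    rfl
  have hu0 : u ≤ 0 := by
    have := hφD (0, 0) (by simp [D, hy0B])
    rw [hφ, map_zero, mul_zero, add_zero] at this
    exact this
  have hcneg : c < 0 := by
    have := hφA (0, 1) (by simp [A])
    linarith
  have hψA : ∀ v, ψ v ≤ (-c) * (ε * ‖v‖) := by
    intro v
    refine le_of_forall_pos_le_add (fun δ hδ => ?_)
    have h1 := hφA (v, ε * ‖v‖ + δ / (-c)) (by
      simp only [A, Set.mem_ofPred_eq]
      have : 0 < δ / (-c) := div_pos hδ (by linarith)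
      linarith)
    rw [hφ] at h1
    have h2 : c * (δ / (-c)) = -δ := by
      rw [div_neg, mul_neg, mul_div_cancel₀ _ hcneg.ne]
    have h3 : ψ v + c * (ε * ‖v‖) + c * (δ / (-c)) < 0 := by nlinarith
    rw [h2] at h3
    linarith
  have hu0' : 0 ≤ u := by
    by_contra hcon
    push Not at hcon
    have hpos : 0 < u / c := div_pos_of_neg_of_neg hcon hcneg
    have h1 := hφA (0, u / c) (by simpa [A] using hpos)
    rw [hφ, map_zero, mul_div_cancel₀ _ hcneg.ne] at h1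
    linarith
  have hψD : ∀ v, v + y0 ∈ C → (-c) * Φ₀ v ≤ ψ v := by
    intro v hv
    have h1 := hφD (v, Φ₀ v) ⟨hv, le_refl _⟩
    rw [hφ] at h1
    linarith
  let Ψ : W →L[ℝ] ℝ := (-c)⁻¹ • ψ
  have hc' : 0 < -c := by linarith
  have hΨ1 : ∀ v, Ψ v ≤ ε * ‖v‖ := by
    intro v
    have := hψA v
    simp only [Ψ, smul_apply, smul_eq_mul]
    rw [inv_mul_le_iff₀ hc']
    exact this
  have hΨ2 : ∀ v, v + y0 ∈ C → Φ₀ v ≤ Ψ v := by
    intro v hv
    have := hψD v hv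
    simp only [Ψ, smul_apply, smul_eq_mul]
    rw [le_inv_mul_iff₀ hc']
    exact this
  have hΨn : ‖Ψ‖ ≤ ε := by
    refine ContinuousLinearMap.opNorm_le_bound _ hε.le (fun v => ?_)
    rw [Real.norm_eq_abs, abs_le]
    constructor
    · have := hΨ1 (-v)
      rw [map_neg, norm_neg] at this
      linarith
    · exact hΨ1 v
  refine ⟨Φ₀ - Ψ, ?_, y0, hy0B, ?_, ?_⟩
  · rw [sub_sub_cancel_left, norm_neg]; exact hΨn
  · have h1 := (hy0S 0).2
    have h2 : (y 0).1 = y₀ := rfl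
    rw [h2] at h1
    have h3 := hδ y0 hy0B
    linarith
  · intro z hz
    have h1 := hΨ2 (z - y0) (by simpa using hz)
    rw [map_sub, map_sub] at h1
    simp only [sub_apply]
    linarith

end Pool.Agent.J6H34.RT
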