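import Pool.Agent.J6H34.RT.Strict

/-!
# An open mapping theorem for the orbit of a functional

Let the isometries of a separable Banach space act transitively on a set `Y` of functionals, with a
topology finer than the weak* topology, for which the isometries are homeomorphisms.  If `Y` is not of first
category in itself, then functionals near `y` are images of `y` under isometries near the identity.
-/

set_option autoImplicit false

namespace Pool.Agent.J6H34.RT

open TopologicalSpace Metric Filter Topology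

variable {E : Type} [NormedAddCommGroup E] [NormedSpace ℝ E]

/-- dependent choice -/
lemma dep {S : Type*} {Inv : ℕ → S → Prop} {R : ℕ → S → S → Prop} {s0 : S} (h0 : Inv 0 s0)
    (h : ∀ n s, Inv n s → ∃ s', Inv (n + 1) s' ∧ R n s s') :
    ∃ v : ℕ → S, v 0 = s0 ∧ ∀ n, Inv n (v n) ∧ R n (v n) (v (n + 1)) := by
  classical
  set g : ℕ → S → S := fun n s => if hs : Inv n s then (h n s hs).choose else s with hg
  set v : ℕ → S := fun n => Nat.rec s0 (fun n s => g n s) n with hv
  have hv1 : ∀ n, v (n + 1) = g n (v n) := fun n => rfl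
  have hI : ∀ n, Inv n (v n) := by
    intro n
    induction n with
    | zero => exact h0
    | succ n ih =>
      rw [hv1, hg]
      simp only
      rw [dif_pos ih]
      exact (h n (v n) ih).choose_spec.1
  refine ⟨v, rfl, fun n => ⟨hI n, ?_⟩⟩
  rw [hv1, hg]
  simp only
  rw [dif_pos (hI n)]
  exact (h n (v n) (hI n)).choose_spec.2

/-- pointwise Cauchy sequences of isometries -/
lemma cauchy_pt {d : ℕ → E} (hd : DenseRange d) {κ : ℕ → ℝ} (hκ : Summable κ)
    (p : ℕ → E ≃ₗᵢ[ℝ] E) (hp : ∀ n, ∀ i ≤ n, ‖p (n + 1) (d i) - p n (d i)‖ ≤ κ n) (x : E) :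
    CauchySeq fun n => p n x := by
  have h1 : ∀ i, CauchySeq fun n => p n (d i) := by
    intro i
    rw [← cauchySeq_shift i]
    refine cauchySeq_of_summable_dist ?_
    refine Summable.of_nonneg_of_le (fun n => dist_nonneg) (fun n => ?_)
      ((summable_nat_add_iff i).2 hκ)
    rw [dist_comm, dist_eq_norm]
    have := hp (n + i) i (by omega)
    have h2 : n + 1 + i = n + i + 1 := by omega
    rw [show (n + 1 + i) = n + i + 1 by omega]
    exact this
  rw [Metric.cauchySeq_iff']
  intro ε hε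
  obtain ⟨i, hi⟩ := Metric.denseRange_iff.1 hd x (ε / 3) (by positivity)
  obtain ⟨N, hN⟩ := Metric.cauchySeq_iff'.1 (h1 i) (ε / 3) (by positivity)
  refine ⟨N, fun n hn => ?_⟩
  have h2 := hN n hn
  rw [dist_eq_norm] at h2 hi ⊢
  have h3 : p n x - p N x = p n (x - d i) + (p n (d i) - p N (d i)) - p N (x - d i) := by
    rw [map_sub, map_sub]; abel
  rw [h3]
  refine (norm_sub_le _ _).trans_lt ?_
  have h4 := norm_add_le (p n (x - d i)) (p n (d i) - p N (d i))
  rw [(p n).norm_map] at h4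
  rw [(p N).norm_map]
  linarith

/-- limits of isometries -/
lemma limit_iso [CompleteSpace E] (p : ℕ → E ≃ₗᵢ[ℝ] E) (h1 : ∀ x, CauchySeq fun n => p n x)
    (h2 : ∀ x, CauchySeq fun n => (p n).symm x) :
    ∃ P : E ≃ₗᵢ[ℝ] E, (∀ x, Tendsto (fun n => p n x) atTop (𝓝 (P x))) ∧
      ∀ x, Tendsto (fun n => (p n).symm x) atTop (𝓝 (P.symm x)) := by
  choose P hP using fun x => cauchySeq_tendsto_of_complete (h1 x)
  choose Q hQ using fun x => cauchySeq_tendsto_of_complete (h2 x)
  have hadd : ∀ x y, P (x + y) = P x + P y := by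
    intro x y
    refine tendsto_nhds_unique (hP (x + y)) ?_
    have := (hP x).add (hP y)
    simpa only [map_add] using this
  have hsmul : ∀ (c : ℝ) x, P (c • x) = c • P x := by
    intro c x
    refine tendsto_nhds_unique (hP (c • x)) ?_
    have := (hP x).const_smul c
    simpa only [map_smul] using this
  have hnorm : ∀ x, ‖P x‖ = ‖x‖ := by
    intro x
    refine tendsto_nhds_unique (hP x).norm ?_
    simp only [LinearIsometryEquiv.norm_map]
    exact tendsto_const_nhds
  have hQP : ∀ x, Q (P x) = x := by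
    intro x
    refine tendsto_nhds_unique (hQ (P x)) ?_
    rw [tendsto_iff_norm_sub_tendsto_zero]
    have h3 := (tendsto_iff_norm_sub_tendsto_zero.1 (hP x))
    refine h3.congr fun n => ?_
    have h4 : (p n).symm (P x) - x = (p n).symm (P x - p n x) := by
      rw [map_sub, LinearIsometryEquiv.symm_apply_apply]
    rw [h4, (p n).symm.norm_map, norm_sub_rev]
  have hPQ : ∀ x, P (Q x) = x := by
    intro x
    refine tendsto_nhds_unique (hP (Q x)) ?_
    rw [tendsto_iff_norm_sub_tendsto_zero]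
    have h3 := (tendsto_iff_norm_sub_tendsto_zero.1 (hQ x))
    refine h3.congr fun n => ?_
    have h4 : p n (Q x) - x = p n (Q x - (p n).symm x) := by
      rw [map_sub, LinearIsometryEquiv.apply_symm_apply]
    rw [h4, (p n).norm_map, norm_sub_rev]
  refine ⟨{ toFun := P, invFun := Q, left_inv := hQP, right_inv := hPQ, map_add' := hadd,
            map_smul' := hsmul, norm_map' := hnorm }, hP, hQ⟩

/-- isometries near the identity -/
def Vn (F : Finset E) (κ : ℝ) : Set (E ≃ₗᵢ[ℝ] E) := {T | ∀ x ∈ F, ‖T x - x‖ ≤ κ}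

/-- the isometries act transitively by homeomorphisms on a space of functionals, which is not of first
category -/
structure Orb {Y : Type} [TopologicalSpace Y] (j : Y → StrongDual ℝ E)
    (a : (E ≃ₗᵢ[ℝ] E) → Y → Y) : Prop where
  inj : Function.Injective j
  cont : ∀ T, Continuous (a T)
  act : ∀ T y, j (a T y) = ac T (j y)
  eval : ∀ x : E, Continuous fun y => j y x
  trans : ∀ y y', ∃ T, a T y = y'
  nonmeagre : ¬ IsMeagre (Set.univ : Set Y)

namespace Orb

variable {Y : Type} [TopologicalSpace Y] {j : Y → StrongDual ℝ E} {a : (E ≃ₗᵢ[ℝ] E) → Y → Y}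

lemma comp (h : Orb j a) (S T : E ≃ₗᵢ[ℝ] E) (y : Y) : a S (a T y) = a (T.trans S) y := by
  apply h.inj
  rw [h.act, h.act, h.act]
  ext x
  rfl

lemma symm_apply (h : Orb j a) (T : E ≃ₗᵢ[ℝ] E) (y : Y) : a T.symm (a T y) = y := by
  apply h.inj
  rw [h.act, h.act]
  ext x
  simp

lemma apply_symm (h : Orb j a) (T : E ≃ₗᵢ[ℝ] E) (y : Y) : a T (a T.symm y) = y := by
  apply h.inj
  rw [h.act, h.act]
  ext x
  simp

/-- the homeomorphism -/
def hom (h : Orb j a) (T : E ≃ₗᵢ[ℝ] E) : Y ≃ₜ Y where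
  toFun := a T
  invFun := a T.symm
  left_inv := h.symm_apply T
  right_inv := h.apply_symm T
  continuous_toFun := h.cont T
  continuous_invFun := h.cont T.symm

/-- the orbit under the isometries near the identity -/
def orb (a : (E ≃ₗᵢ[ℝ] E) → Y → Y) (y : Y) (F : Finset E) (κ : ℝ) : Set Y :=
  {z | ∃ T ∈ Vn F κ, a T y = z}

/-- the orbit maps are nearly open -/
theorem near [SeparableSpace E] (h : Orb j a) (F : Finset E) {κ : ℝ} (hκ : 0 < κ) (y : Y) :
    y ∈ interior (closure (orb a y F κ)) := by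
  classical
  have : SecondCountableTopology E := UniformSpace.secondCountable_of_separable E
  set Fm : (E ≃ₗᵢ[ℝ] E) → (F → E) := fun T i => T i with hFm
  obtain ⟨D, hDc, hD⟩ := TopologicalSpace.isOpen_iUnion_countable
    (fun T : E ≃ₗᵢ[ℝ] E => ball (Fm T) (κ / 2)) (fun T => isOpen_ball)
  have hDc' : Countable D := hDc.to_subtype
  have hcov : ∀ T : E ≃ₗᵢ[ℝ] E, ∃ g : D, ∀ x ∈ F, ‖T x - (g : E ≃ₗᵢ[ℝ] E) x‖ ≤ κ / 2 := by
    intro T
    have h1 : Fm T ∈ ⋃ i ∈ D, ball (Fm i) (κ / 2) := by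
      rw [hD]
      exact Set.mem_iUnion.2 ⟨T, mem_ball_self (by positivity)⟩
    obtain ⟨g, hg, h2⟩ := Set.mem_iUnion₂.1 h1
    refine ⟨⟨g, hg⟩, fun x hx => ?_⟩
    rw [mem_ball, dist_pi_lt_iff (by positivity)] at h2
    have := h2 ⟨x, hx⟩
    rw [dist_eq_norm] at this
    exact this.le
  set A : Set Y := orb a y F (κ / 2) with hA
  have hAne : (interior (closure A)).Nonempty := by
    by_contra hcon
    rw [Set.not_nonempty_iff_eq_empty] at hcon
    apply h.nonmeagre
    have hU : (Set.univ : Set Y) = ⋃ g : D, (h.hom g) '' A := by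
      symm
      rw [Set.eq_univ_iff_forall]
      intro z
      obtain ⟨T, hT⟩ := h.trans y z
      obtain ⟨g, hg⟩ := hcov T
      refine Set.mem_iUnion.2 ⟨g, a (T.trans (g : E ≃ₗᵢ[ℝ] E).symm) y, ⟨_, fun x hx => ?_, rfl⟩, ?_⟩
      · rw [LinearIsometryEquiv.trans_apply]
        have h1 : (g : E ≃ₗᵢ[ℝ] E).symm (T x) - x =
            (g : E ≃ₗᵢ[ℝ] E).symm (T x - (g : E ≃ₗᵢ[ℝ] E) x) := by
          rw [map_sub, LinearIsometryEquiv.symm_apply_apply]
        rw [h1, LinearIsometryEquiv.norm_map]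
        exact hg x hx
      · show a g (a (T.trans (g : E ≃ₗᵢ[ℝ] E).symm) y) = z
        rw [← h.comp, h.apply_symm, hT]
    rw [hU]
    refine isMeagre_iUnion fun g => IsNowhereDense.isMeagre ?_
    unfold IsNowhereDense
    rw [← (h.hom g).image_closure, ← (h.hom g).image_interior, hcon, Set.image_empty]
  obtain ⟨z0, hz0⟩ := hAne
  obtain ⟨v, hv1, S, hS, rfl⟩ := mem_closure_iff.1 (interior_subset hz0) _ isOpen_interior hz0
  have h1 : (h.hom S.symm) '' interior (closure A) ⊆ interior (closure (orb a y F κ)) := by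
    rw [(h.hom S.symm).image_interior, (h.hom S.symm).image_closure]
    refine interior_mono (closure_mono ?_)
    rintro _ ⟨_, ⟨T, hT, rfl⟩, rfl⟩
    refine ⟨T.trans S.symm, fun x hx => ?_, (h.comp _ _ _).symm⟩
    rw [LinearIsometryEquiv.trans_apply]
    have h2 : S.symm (T x) - x = S.symm ((T x - x) - (S x - x)) := by
      rw [sub_sub_sub_cancel_right, map_sub, S.symm_apply_apply]
    rw [h2, S.symm.norm_map]
    refine (norm_sub_le _ _).trans ?_
    have := hT x hx
    have := hS x hx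
    linarith
  refine h1 ⟨_, hv1, ?_⟩
  exact h.symm_apply S y

/-- **The open mapping theorem.** -/
theorem micro [SeparableSpace E] [CompleteSpace E] (h : Orb j a) (y0 : Y) (F : Finset E) {κ : ℝ}
    (hκ : 0 < κ) : ∃ O : Set Y, IsOpen O ∧ y0 ∈ O ∧ ∀ y1 ∈ O, ∃ T ∈ Vn F κ, a T y0 = y1 := by
  classical
  rcases isEmpty_or_nonempty E with hE | hE
  · exact (IsEmpty.false (α := E) (0 : E)).elim
  set d : ℕ → E := denseSeq E with hd
  have hdd : DenseRange d := denseRange_denseSeq E
  set κn : ℕ → ℝ := fun n => κ / 2 / 2 / 2 ^ n with hκn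
  have hκn0 : ∀ n, 0 < κn n := fun n => by rw [hκn]; positivity
  have hκs : Summable κn := (hasSum_geometric_two' (κ / 2)).summable
  set Dn : ℕ → Finset E := fun n => F ∪ (Finset.range (n + 1)).image d with hDn
  set Fp : ℕ → (E ≃ₗᵢ[ℝ] E) → Finset E := fun n p => Dn n ∪ (Dn n).image p with hFp
  have hdD : ∀ n, ∀ i ≤ n, d i ∈ Dn n := fun n i hi =>
    Finset.mem_union_right _ (Finset.mem_image_of_mem _ (Finset.mem_range.2 (by omega)))
  have hFD : ∀ n, ∀ x ∈ F, x ∈ Dn n := fun n x hx => Finset.mem_union_left _ hx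
  refine ⟨interior (closure (orb a y0 (Fp 0 (LinearIsometryEquiv.refl ℝ E)) (κn 0))),
    isOpen_interior, h.near _ (hκn0 0) y0, fun y1 hy1 => ?_⟩
  -- the states
  set Inv : ℕ → (E ≃ₗᵢ[ℝ] E) × (E ≃ₗᵢ[ℝ] E) → Prop := fun n s =>
    a s.2 y1 ∈ interior (closure (orb a (a s.1 y0) (Fp n s.1) (κn n))) with hInv
  set Rel : ℕ → (E ≃ₗᵢ[ℝ] E) × (E ≃ₗᵢ[ℝ] E) → (E ≃ₗᵢ[ℝ] E) × (E ≃ₗᵢ[ℝ] E) → Prop :=
    fun n s s' => (∀ x ∈ Dn n, ‖s'.1 x - s.1 x‖ ≤ κn n ∧ ‖s'.1.symm x - s.1.symm x‖ ≤ κn n ∧
      ‖s'.2 x - s.2 x‖ ≤ κn n ∧ ‖s'.2.symm x - s.2.symm x‖ ≤ κn n) ∧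
      ∀ i ≤ n, |j (a s'.1 y0) (d i) - j (a s.2 y1) (d i)| < (1 / 2) ^ n with hRel
  have hmove : ∀ (n : ℕ) (p g : E ≃ₗᵢ[ℝ] E), g ∈ Vn (Fp n p) (κn n) → ∀ x ∈ Dn n,
      ‖(p.trans g) x - p x‖ ≤ κn n ∧ ‖(p.trans g).symm x - p.symm x‖ ≤ κn n := by
    intro n p g hg x hx
    refine ⟨?_, ?_⟩
    · rw [LinearIsometryEquiv.trans_apply]
      exact hg _ (Finset.mem_union_right _ (Finset.mem_image_of_mem _ hx))
    · have h1 : (p.trans g).symm x - p.symm x = p.symm (g.symm (x - g x)) := by
        rw [map_sub, map_sub, g.symm_apply_apply]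
        rfl
      rw [h1, p.symm.norm_map, g.symm.norm_map, norm_sub_rev]
      exact hg _ (Finset.mem_union_left _ hx)
  have hopen : ∀ (n : ℕ) (b : Y), IsOpen {c : Y | ∀ i ≤ n, |j c (d i) - j b (d i)| < (1 / 2) ^ n} := by
    intro n b
    have : {c : Y | ∀ i ≤ n, |j c (d i) - j b (d i)| < (1 / 2) ^ n} =
        ⋂ i ∈ Finset.range (n + 1), {c : Y | |j c (d i) - j b (d i)| < (1 / 2) ^ n} := by
      ext c
      simp only [Set.mem_ofPred_eq, Set.mem_iInter, Finset.mem_range, Nat.lt_succ_iff]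
    rw [this]
    refine isOpen_biInter_finset fun i _ => ?_
    exact isOpen_lt (((h.eval (d i)).sub continuous_const).abs) continuous_const
  obtain ⟨v, hv0, hv⟩ := dep (Inv := Inv) (R := Rel)
    (s0 := (LinearIsometryEquiv.refl ℝ E, LinearIsometryEquiv.refl ℝ E)) (by
      have e1 : ∀ y, a (LinearIsometryEquiv.refl ℝ E) y = y := by
        intro y
        apply h.inj
        rw [h.act]
        ext x
        rfl
      simp only [hInv, e1]
      exact hy1) (by
      rintro n ⟨p, q⟩ hI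
      simp only [hInv] at hI
      set b : Y := a q y1 with hb
      -- first step
      obtain ⟨c, ⟨hc1, hc2⟩, g, hg, hgc⟩ := mem_closure_iff.1 (interior_subset hI)
        ({c : Y | ∀ i ≤ n, |j c (d i) - j b (d i)| < (1 / 2) ^ n} ∩
          interior (closure (orb a b (Fp n q) (κn n))))
        ((hopen n b).inter isOpen_interior)
        ⟨fun i _ => by rw [sub_self, abs_zero]; positivity, h.near _ (hκn0 n) b⟩
      have hc : a (p.trans g) y0 = c := by rw [← h.comp, hgc]
      -- second step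
      obtain ⟨b', hb'2, k, hk, hkb⟩ := mem_closure_iff.1 (interior_subset hc2)
        (interior (closure (orb a c (Fp (n + 1) (p.trans g)) (κn (n + 1)))))
        isOpen_interior (h.near _ (hκn0 (n + 1)) c)
      have hb' : a (q.trans k) y1 = b' := by rw [← h.comp, ← hkb]
      refine ⟨(p.trans g, q.trans k), ?_, ?_, ?_⟩
      · simp only [hInv]
        rw [hb', hc]
        exact hb'2
      · intro x hx
        have e1 := hmove n p g hg x hx
        have e2 := hmove n q k hk x hx
        exact ⟨e1.1, e1.2, e2.1, e2.2⟩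
      · intro i hi
        simp only
        rw [hc]
        exact hc1 i hi)
  -- the limits
  have hc1 : ∀ x, CauchySeq fun n => (v n).1 x := cauchy_pt hdd hκs (fun n => (v n).1)
    fun n i hi => ((hv n).2.1 (d i) (hdD n i hi)).1
  have hc2 : ∀ x, CauchySeq fun n => (v n).1.symm x := cauchy_pt hdd hκs (fun n => (v n).1.symm)
    fun n i hi => ((hv n).2.1 (d i) (hdD n i hi)).2.1
  have hc3 : ∀ x, CauchySeq fun n => (v n).2 x := cauchy_pt hdd hκs (fun n => (v n).2)
    fun n i hi => ((hv n).2.1 (d i) (hdD n i hi)).2.2.1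
  have hc4 : ∀ x, CauchySeq fun n => (v n).2.symm x := cauchy_pt hdd hκs (fun n => (v n).2.symm)
    fun n i hi => ((hv n).2.1 (d i) (hdD n i hi)).2.2.2
  obtain ⟨P, hP, hPs⟩ := limit_iso (fun n => (v n).1) hc1 hc2
  obtain ⟨Q, hQ, hQs⟩ := limit_iso (fun n => (v n).2) hc3 hc4
  have hbound : ∀ x ∈ F, ∀ n, ‖(v n).1 x - x‖ ≤ κ / 2 - κ / 2 / 2 ^ n ∧
      ‖(v n).2 x - x‖ ≤ κ / 2 - κ / 2 / 2 ^ n := by
    intro x hx n
    induction n with
    | zero =>
      rw [hv0]
      simp
    | succ n ih =>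
      have h1 := (hv n).2.1 x (hFD n x hx)
      have h2 : κ / 2 - κ / 2 / 2 ^ (n + 1) = (κ / 2 - κ / 2 / 2 ^ n) + κn n := by
        rw [hκn]
        simp only
        rw [pow_succ]
        field_simp
        ring
      rw [h2]
      constructor
      · have h3 : (v (n + 1)).1 x - x = ((v (n + 1)).1 x - (v n).1 x) + ((v n).1 x - x) := by abel
        rw [h3]
        refine (norm_add_le _ _).trans ?_
        linarith [h1.1, ih.1]
      · have h3 : (v (n + 1)).2 x - x = ((v (n + 1)).2 x - (v n).2 x) + ((v n).2 x - x) := by abel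
        rw [h3]
        refine (norm_add_le _ _).trans ?_
        linarith [h1.2.2.1, ih.2]
  have hPF : ∀ x ∈ F, ‖P x - x‖ ≤ κ / 2 := fun x hx =>
    le_of_tendsto ((hP x).sub_const x).norm (Eventually.of_forall fun n => by
      have h1 := (hbound x hx n).1
      have h2 : 0 < κ / 2 / 2 ^ n := by positivity
      linarith)
  have hQF : ∀ x ∈ F, ‖Q x - x‖ ≤ κ / 2 := fun x hx =>
    le_of_tendsto ((hQ x).sub_const x).norm (Eventually.of_forall fun n => by
      have h1 := (hbound x hx n).2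
      have h2 : 0 < κ / 2 / 2 ^ n := by positivity
      linarith)
  have heq : ac P (j y0) = ac Q (j y1) := by
    have h1 : ∀ i, ac P (j y0) (d i) = ac Q (j y1) (d i) := by
      intro i
      have e1 : Tendsto (fun n => j (a (v (n + 1)).1 y0) (d i)) atTop (𝓝 (ac P (j y0) (d i))) := by
        simp only [h.act, ac_apply]
        exact ((j y0).continuous.tendsto _).comp ((tendsto_add_atTop_iff_nat 1).2 (hPs (d i)))
      have e2 : Tendsto (fun n => j (a (v n).2 y1) (d i)) atTop (𝓝 (ac Q (j y1) (d i))) := by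
        simp only [h.act, ac_apply]
        exact ((j y1).continuous.tendsto _).comp (hQs (d i))
      have e3 : Tendsto (fun n => j (a (v (n + 1)).1 y0) (d i) - j (a (v n).2 y1) (d i)) atTop
          (𝓝 0) := by
        rw [tendsto_zero_iff_abs_tendsto_zero]
        refine squeeze_zero' (Eventually.of_forall fun n => abs_nonneg _)
          (eventually_atTop.2 ⟨i, fun n hn => ((hv n).2.2 i hn).le⟩)
          (tendsto_pow_atTop_nhds_zero_of_lt_one (by norm_num) (by norm_num))
      have e4 := tendsto_nhds_unique e3 (e1.sub e2)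
      linarith
    ext x
    have h2 : Set.EqOn (fun x => ac P (j y0) x) (fun x => ac Q (j y1) x) (closure (Set.range d)) :=
      Set.EqOn.closure (by rintro _ ⟨i, rfl⟩; exact h1 i) (ac P (j y0)).continuous
        (ac Q (j y1)).continuous
    exact h2 (hdd x)
  refine ⟨P.trans Q.symm, fun x hx => ?_, ?_⟩
  · rw [LinearIsometryEquiv.trans_apply]
    have h2 : Q.symm (P x) - x = Q.symm ((P x - x) - (Q x - x)) := by
      rw [sub_sub_sub_cancel_right, map_sub, Q.symm_apply_apply]
    rw [h2, Q.symm.norm_map]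
    refine (norm_sub_le _ _).trans ?_
    linarith [hPF x hx, hQF x hx]
  · rw [← h.comp]
    apply h.inj
    rw [h.act, h.act, heq]
    ext x
    simp

end Orb

end Pool.Agent.J6H34.RT
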