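import Pool.Agent.J6H34.RT.Uc

/-!
# The two topologies

The isometries act on the norm attaining functionals of norm one, with the norm topology and with the weak*
topology.
-/

set_option autoImplicit false

namespace Pool.Agent.J6H34.RT

open TopologicalSpace Metric Filter Topology

variable {E : Type} [NormedAddCommGroup E] [NormedSpace ℝ E]

/-! ## The norm topology -/

/-- norm attaining functionals of norm one, norm topology -/
def YN (E : Type) [NormedAddCommGroup E] [NormedSpace ℝ E] : Type :=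
  {f : StrongDual ℝ E // ‖f‖ = 1 ∧ Att f}

instance : TopologicalSpace (YN E) := inferInstanceAs (TopologicalSpace {_f : StrongDual ℝ E // _})

/-- the action -/
noncomputable def aN (T : E ≃ₗᵢ[ℝ] E) (y : YN E) : YN E :=
  ⟨ac T y.1, by rw [ac_norm]; exact y.2.1, y.2.2.ac T⟩

lemma ac_sub (T : E ≃ₗᵢ[ℝ] E) (f g : StrongDual ℝ E) : ac T (f - g) = ac T f - ac T g := by
  ext x
  rfl

lemma ac_continuous (T : E ≃ₗᵢ[ℝ] E) : Continuous (ac T : StrongDual ℝ E → StrongDual ℝ E) := by
  refine Isometry.continuous (Isometry.of_dist_eq fun f g => ?_)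
  rw [dist_eq_norm, dist_eq_norm, ← ac_sub, ac_norm]

theorem orbN [CompleteSpace E] [SeparableSpace E] (htr : Tr E)
    (hm : ¬ IsMeagre (Set.univ : Set (YN E))) :
    Orb (E := E) (Y := YN E) (fun y => y.1) aN where
  inj := Subtype.val_injective
  cont := fun T => ((ac_continuous T).comp continuous_subtype_val).subtype_mk _
  act := fun T y => rfl
  eval := fun x => ((ContinuousLinearMap.apply ℝ ℝ x).continuous).comp continuous_subtype_val
  trans := by
    rintro ⟨f, hf, x, hx, hfx⟩ ⟨g, hg, y, hy, hgy⟩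
    obtain ⟨T, hT⟩ := htr x y hx hy
    refine ⟨T, Subtype.ext ?_⟩
    exact Pool.Agent.H821.Rot.unique_support htr hy _ _ (by rw [aN, ac_norm, hf])
      (by rw [aN, ac_apply, ← hT, T.symm_apply_apply, hfx, hf]) hg.le (by rw [hgy, hg])
  nonmeagre := hm

/-- the normalisation -/
noncomputable def nrm (f : {f : StrongDual ℝ E // f ≠ 0}) : sphere (0 : StrongDual ℝ E) 1 :=
  ⟨‖f.1‖⁻¹ • f.1, by
    rw [mem_sphere_zero_iff_norm, norm_smul, norm_inv, norm_norm,
      inv_mul_cancel₀ (norm_ne_zero_iff.2 f.2)]⟩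

lemma nrm_continuous : Continuous (nrm (E := E)) := by
  refine Continuous.subtype_mk ?_ _
  exact (continuous_subtype_val.norm.inv₀ fun f => norm_ne_zero_iff.2 f.2).smul
    continuous_subtype_val

lemma nrm_open : IsOpenMap (nrm (E := E)) := by
  refine IsOpenMap.of_sections fun f => ?_
  have hf : (0 : ℝ) < ‖f.1‖ := norm_pos_iff.2 f.2
  have hs : ∀ s : sphere (0 : StrongDual ℝ E) 1, ‖s.1‖ = 1 := fun s => mem_sphere_zero_iff_norm.1 s.2
  refine ⟨fun s => ⟨‖f.1‖ • s.1, ?_⟩, ?_, ?_, ?_⟩
  · refine smul_ne_zero hf.ne' (norm_ne_zero_iff.1 ?_)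
    rw [hs s]
    exact one_ne_zero
  · refine Continuous.continuousAt ?_
    exact (continuous_subtype_val.const_smul ‖f.1‖).subtype_mk _
  · apply Subtype.ext
    show ‖f.1‖ • (‖f.1‖⁻¹ • f.1) = f.1
    rw [smul_smul, mul_inv_cancel₀ hf.ne', one_smul]
  · intro s
    apply Subtype.ext
    show ‖‖f.1‖ • s.1‖⁻¹ • (‖f.1‖ • s.1) = s.1
    rw [norm_smul, norm_norm, hs s, mul_one, smul_smul, inv_mul_cancel₀ hf.ne', one_smul]

lemma Att.smul_iff {f : StrongDual ℝ E} {c : ℝ} (hc : 0 < c) : Att (c • f) ↔ Att f := by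
  unfold Att
  refine exists_congr fun x => and_congr_right fun _ => ?_
  rw [norm_smul, Real.norm_of_nonneg hc.le, smul_apply, smul_eq_mul]
  exact mul_right_inj' hc.ne'

theorem nonmeagreN [Nontrivial E] (h : ¬ IsMeagre {f : StrongDual ℝ E | Att f}) :
    ¬ IsMeagre (Set.univ : Set (YN E)) := by
  intro hm
  apply h
  -- the sphere
  have h1 : IsMeagre {s : sphere (0 : StrongDual ℝ E) 1 | Att s.1} := by
    set g : YN E → sphere (0 : StrongDual ℝ E) 1 := fun y =>
      ⟨y.1, mem_sphere_zero_iff_norm.2 y.2.1⟩ with hg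
    have hgi : Topology.IsInducing g := by
      refine Topology.IsInducing.of_comp (g := Subtype.val) ?_ continuous_subtype_val ?_
      · exact continuous_subtype_val.subtype_mk _
      · exact Topology.IsInducing.subtypeVal
    have h2 := hgi.isMeagre_image hm
    refine h2.mono ?_
    rintro s hs
    exact ⟨⟨s.1, mem_sphere_zero_iff_norm.1 s.2, hs⟩, trivial, rfl⟩
  have h2 := h1.preimage_of_isOpenMap nrm_continuous nrm_open
  have h3 : IsMeagre ((↑) '' (nrm ⁻¹' {s : sphere (0 : StrongDual ℝ E) 1 | Att s.1}) :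
      Set (StrongDual ℝ E)) := h2.image_val
  have h4 : IsMeagre ({0} : Set (StrongDual ℝ E)) := by
    refine IsNowhereDense.isMeagre ?_
    unfold IsNowhereDense
    rw [closure_singleton, interior_singleton]
  refine (h3.union h4).mono ?_
  intro f hf
  rcases eq_or_ne f 0 with rfl | hf0
  · exact Or.inr rfl
  · refine Or.inl ⟨⟨f, hf0⟩, ?_, rfl⟩
    show Att (‖f‖⁻¹ • f)
    rw [Att.smul_iff (inv_pos.2 (norm_pos_iff.2 hf0))]
    exact hf

theorem ucN [CompleteSpace E] [SeparableSpace E] [Nontrivial E] (htr : Tr E)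
    (h : ¬ IsMeagre {f : StrongDual ℝ E | Att f}) : UniformConvexSpace E := by
  refine (orbN htr (nonmeagreN h)).uniformConvex htr ?_ ?_
  · intro y0 O hO hy0
    obtain ⟨U, hU, rfl⟩ := isOpen_induced_iff.1 hO
    obtain ⟨ρ, hρ, hρU⟩ := Metric.isOpen_iff.1 hU y0.1 hy0
    exact ⟨ρ, hρ, fun y1 hy1 => hρU (by rw [mem_ball, dist_eq_norm]; exact hy1)⟩
  · intro f hf hfa
    exact ⟨⟨f, hf, hfa⟩, rfl⟩

/-! ## The weak* topology -/

/-- norm attaining functionals of norm one, weak* topology -/
def YW (E : Type) [NormedAddCommGroup E] [NormedSpace ℝ E] : Type :=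
  {f : {f : WeakDual ℝ E // ‖WeakDual.toStrongDual f‖ = 1} // Att (WeakDual.toStrongDual f.1)}

instance : TopologicalSpace (YW E) := inferInstanceAs (TopologicalSpace
  {_f : {f : WeakDual ℝ E // ‖WeakDual.toStrongDual f‖ = 1} // _})

/-- the action -/
noncomputable def aW (T : E ≃ₗᵢ[ℝ] E) (y : YW E) : YW E :=
  ⟨⟨StrongDual.toWeakDual (ac T (WeakDual.toStrongDual y.1.1)), by
    show ‖ac T (WeakDual.toStrongDual y.1.1)‖ = 1
    rw [ac_norm]; exact y.1.2⟩, y.2.ac T⟩

theorem orbW [CompleteSpace E] [SeparableSpace E] (htr : Tr E)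
    (hm : ¬ IsMeagre (Set.univ : Set (YW E))) :
    Orb (E := E) (Y := YW E) (fun y => WeakDual.toStrongDual y.1.1) aW where
  inj := by
    intro y z h
    exact Subtype.ext (Subtype.ext (WeakDual.toStrongDual.injective h))
  cont := fun T => by
    refine Continuous.subtype_mk (Continuous.subtype_mk ?_ _) _
    refine WeakDual.continuous_of_continuous_eval fun x => ?_
    exact ((WeakDual.eval_continuous (T.symm x)).comp continuous_subtype_val).comp
      continuous_subtype_val
  act := fun T y => rfl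
  eval := fun x => ((WeakDual.eval_continuous x).comp continuous_subtype_val).comp
      continuous_subtype_val
  trans := by
    rintro ⟨⟨f, hf⟩, x, hx, hfx⟩ ⟨⟨g, hg⟩, y, hy, hgy⟩
    obtain ⟨T, hT⟩ := htr x y hx hy
    refine ⟨T, Subtype.ext (Subtype.ext (WeakDual.toStrongDual.injective ?_))⟩
    exact Pool.Agent.H821.Rot.unique_support htr hy _ _
      (show ‖ac T (WeakDual.toStrongDual f)‖ ≤ 1 by rw [ac_norm, hf])
      (show ac T (WeakDual.toStrongDual f) y = 1 by
        rw [ac_apply, ← hT, T.symm_apply_apply]; exact hfx.trans hf) hg.le (hgy.trans hg)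
  nonmeagre := hm

theorem ucW [CompleteSpace E] [SeparableSpace E] [Nontrivial E] (htr : Tr E)
    (h : ¬ IsMeagre {f : {f : WeakDual ℝ E // ‖WeakDual.toStrongDual f‖ = 1} |
      Att (WeakDual.toStrongDual f.1)}) : UniformConvexSpace E := by
  have hm : ¬ IsMeagre (Set.univ : Set (YW E)) := by
    intro hm
    apply h
    have h2 := (Topology.IsInducing.subtypeVal (t := {f : {f : WeakDual ℝ E //
      ‖WeakDual.toStrongDual f‖ = 1} | Att (WeakDual.toStrongDual f.1)})).isMeagre_image hm
    refine h2.mono ?_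
    intro f hf
    exact ⟨⟨f, hf⟩, trivial, rfl⟩
  refine (orbW htr hm).uniformConvex htr ?_ ?_
  · intro y0 O hO hy0
    obtain ⟨U, hU, rfl⟩ := isOpen_induced_iff.1 hO
    obtain ⟨V, hV, rfl⟩ := isOpen_induced_iff.1 hU
    have hV' : IsOpen (StrongDual.toWeakDual ⁻¹' V : Set (StrongDual ℝ E)) :=
      hV.preimage NormedSpace.Dual.toWeakDual_continuous
    obtain ⟨ρ, hρ, hρU⟩ := Metric.isOpen_iff.1 hV' (WeakDual.toStrongDual y0.1.1) hy0
    refine ⟨ρ, hρ, fun y1 hy1 => ?_⟩
    exact hρU (show WeakDual.toStrongDual y1.1.1 ∈ _ by rw [mem_ball, dist_eq_norm]; exact hy1)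
  · intro f hf hfa
    exact ⟨⟨⟨StrongDual.toWeakDual f, hf⟩, hfa⟩, rfl⟩

/-- the unit sphere of the dual with the weak* topology is a Baire space -/
theorem baireW : BaireSpace {f : WeakDual ℝ E // ‖WeakDual.toStrongDual f‖ = 1} := by
  set B : Set (WeakDual ℝ E) := WeakDual.toStrongDual ⁻¹' closedBall (0 : StrongDual ℝ E) 1 with hB
  have hBc : CompactSpace B := isCompact_iff_compactSpace.1 (WeakDual.isCompact_closedBall 0 1)
  set G : Set B := {f | ‖WeakDual.toStrongDual f.1‖ = 1} with hG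
  have hGδ : IsGδ G := by
    have h1 : G = ⋂ n : ℕ, {f : B | WeakDual.toStrongDual f.1 ∈
        closedBall (0 : StrongDual ℝ E) (1 - 1 / (n + 1))}ᶜ := by
      ext f
      rw [Set.mem_iInter]
      have hf : ‖WeakDual.toStrongDual f.1‖ ≤ 1 := mem_closedBall_zero_iff.1 f.2
      constructor
      · intro h n hn
        have h2 : ‖WeakDual.toStrongDual f.1‖ ≤ 1 - 1 / ((n : ℝ) + 1) :=
          mem_closedBall_zero_iff.1 hn
        have h3 : (0 : ℝ) < 1 / ((n : ℝ) + 1) := by positivity
        have h4 : ‖WeakDual.toStrongDual f.1‖ = 1 := h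
        linarith
      · intro h
        by_contra hcon
        have h2 : ‖WeakDual.toStrongDual f.1‖ < 1 := lt_of_le_of_ne hf hcon
        obtain ⟨n, hn⟩ := exists_nat_one_div_lt (sub_pos.2 h2)
        exact h n (mem_closedBall_zero_iff.2 (by linarith))
    rw [h1]
    refine IsGδ.iInter fun n => IsOpen.isGδ ?_
    rw [isOpen_compl_iff]
    exact (WeakDual.isClosed_closedBall (0 : StrongDual ℝ E) _).preimage continuous_subtype_val
  have h2 : BaireSpace G := hGδ.baireSpace_of_t2Space_locallyCompactSpace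
  have hh : Homeomorph G {f : WeakDual ℝ E // ‖WeakDual.toStrongDual f‖ = 1} :=
    { toFun := fun f => ⟨f.1.1, f.2⟩
      invFun := fun f => ⟨⟨f.1, mem_closedBall_zero_iff.2 f.2.le⟩, f.2⟩
      left_inv := fun f => rfl
      right_inv := fun f => rfl
      continuous_toFun := (continuous_subtype_val.comp continuous_subtype_val).subtype_mk _
      continuous_invFun := (continuous_subtype_val.subtype_mk _).subtype_mk _ }
  exact hh.baireSpace

end Pool.Agent.J6H34.RT
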