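import Pool.Agent.J6H34.RT.Inst

/-!
# Reflexivity and the dual space

Uniformly convex spaces are reflexive (Milman, Pettis).  For a reflexive separable space with a transitive norm
the dual space is separable with a transitive norm.
-/

set_option autoImplicit false

namespace Pool.Agent.J6H34.RT

open TopologicalSpace Metric Filter Topology

variable {E : Type} [NormedAddCommGroup E] [NormedSpace ℝ E]

/-- reflexive spaces -/
def Refl (E : Type) [NormedAddCommGroup E] [NormedSpace ℝ E] : Prop :=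
  Function.Surjective (NormedSpace.inclusionInDoubleDual ℝ E)

/-- Goldstine's theorem for two functionals -/
lemma goldstine2 (ξ : StrongDual ℝ (StrongDual ℝ E)) (hξ : ‖ξ‖ ≤ 1) (f g : StrongDual ℝ E) {η : ℝ}
    (hη : 0 < η) : ∃ y : E, ‖y‖ ≤ 1 ∧ |f y - ξ f| < η ∧ |g y - ξ g| < η := by
  set Λ : E →L[ℝ] ℝ × ℝ := f.prod g with hΛ
  set K : Set (ℝ × ℝ) := closure (Λ '' closedBall 0 1) with hK
  have hKc : Convex ℝ K := ((convex_closedBall (0 : E) 1).linear_image Λ.toLinearMap).closure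
  have hmem : (ξ f, ξ g) ∈ K := by
    by_contra hcon
    obtain ⟨φ, u, h1, h2⟩ := geometric_hahn_banach_closed_point hKc isClosed_closure hcon
    have h3 : ∀ a b : ℝ, φ (a, b) = φ (1, 0) * a + φ (0, 1) * b := by
      intro a b
      have e : ((a, b) : ℝ × ℝ) = a • (1, 0) + b • (0, 1) := by simp
      rw [e, map_add, map_smul, map_smul, smul_eq_mul, smul_eq_mul, mul_comm, mul_comm b]
    set h : StrongDual ℝ E := φ (1, 0) • f + φ (0, 1) • g with hh
    have h4 : ∀ y : E, ‖y‖ ≤ 1 → h y < u := by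
      intro y hy
      have h5 := h1 (Λ y) (subset_closure ⟨y, mem_closedBall_zero_iff.2 hy, rfl⟩)
      have h6 : Λ y = (f y, g y) := rfl
      rw [h6, h3] at h5
      exact h5
    have hu : 0 < u := by
      have := h4 0 (by rw [norm_zero]; exact zero_le_one)
      rwa [map_zero] at this
    have h5 : ‖h‖ ≤ u := by
      refine ContinuousLinearMap.opNorm_le_of_unit_norm hu.le fun z hz => ?_
      rw [Real.norm_eq_abs, abs_le]
      constructor
      · have := h4 (-z) (by rw [norm_neg, hz])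
        rw [map_neg] at this
        linarith
      · exact (h4 z hz.le).le
    have h6 : ξ h = φ (1, 0) * ξ f + φ (0, 1) * ξ g := by
      rw [hh, map_add, map_smul, map_smul]
      rfl
    rw [h3, ← h6] at h2
    have h7 := (le_abs_self _).trans (ξ.le_opNorm h)
    have h8 : ‖ξ‖ * ‖h‖ ≤ 1 * ‖h‖ := mul_le_mul_of_nonneg_right hξ (norm_nonneg _)
    linarith
  obtain ⟨_, ⟨y, hy, rfl⟩, hd⟩ := Metric.mem_closure_iff.1 hmem η hη
  refine ⟨y, mem_closedBall_zero_iff.1 hy, ?_, ?_⟩
  · have h1 : dist (ξ f) (f y) ≤ dist (ξ f, ξ g) (Λ y) := le_max_left _ _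
    rw [Real.dist_eq, abs_sub_comm] at h1
    exact h1.trans_lt hd
  · have h1 : dist (ξ g) (g y) ≤ dist (ξ f, ξ g) (Λ y) := le_max_right _ _
    rw [Real.dist_eq, abs_sub_comm] at h1
    exact h1.trans_lt hd

/-- slices of the unit ball of a uniformly convex space -/
lemma slices_uc (hu : UniformConvexSpace E) {ε : ℝ} (hε : 0 < ε) :
    ∃ δ : ℝ, 0 < δ ∧ ∀ (f : StrongDual ℝ E) (x y : E), ‖f‖ = 1 → ‖x‖ = 1 → f x = 1 → ‖y‖ ≤ 1 →
      1 - δ ≤ f y → ‖x - y‖ < ε := by
  obtain ⟨δ, hδ, hδ2⟩ := exists_forall_closed_ball_dist_add_le_two_sub E hε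
  refine ⟨δ / 2, by positivity, fun f x y hf hx hfx hy hfy => ?_⟩
  by_contra hcon
  push Not at hcon
  have h1 := hδ2 hx.le hy hcon
  have h2 := (le_abs_self _).trans (f.le_opNorm (x + y))
  rw [map_add, hf, one_mul, hfx] at h2
  linarith

lemma closed_range [CompleteSpace E] :
    IsClosed (Set.range (NormedSpace.inclusionInDoubleDual ℝ E)) := by
  have h1 : Isometry (NormedSpace.inclusionInDoubleDualLi (E := E) ℝ) :=
    (NormedSpace.inclusionInDoubleDualLi (E := E) ℝ).isometry
  have h2 := h1.isClosedEmbedding.isClosed_range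
  exact h2

lemma surj_of_approx [CompleteSpace E] {W : Type} [NormedAddCommGroup W] [NormedSpace ℝ W]
    (J : E →ₗᵢ[ℝ] W) (h : ∀ ξ : W, ‖ξ‖ = 1 → ∀ ε : ℝ, 0 < ε → ∃ x, ‖ξ - J x‖ < ε) :
    Function.Surjective J := by
  have key : ∀ ξ : W, ‖ξ‖ = 1 → ∃ x, J x = ξ := by
    intro ξ hξ
    have hcl : IsClosed (Set.range J) := J.isometry.isClosedEmbedding.isClosed_range
    have : ξ ∈ closure (Set.range J) := by
      rw [Metric.mem_closure_iff]
      intro ε hε
      obtain ⟨x, hx⟩ := h ξ hξ ε hε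
      exact ⟨_, ⟨x, rfl⟩, by rw [dist_eq_norm]; exact hx⟩
    rw [hcl.closure_eq] at this
    exact this
  intro ξ
  rcases eq_or_ne ξ 0 with rfl | hξ
  · exact ⟨0, map_zero _⟩
  · have h0 : (0 : ℝ) < ‖ξ‖ := norm_pos_iff.2 hξ
    obtain ⟨x, hx⟩ := key (‖ξ‖⁻¹ • ξ) (by
      rw [norm_smul, norm_inv, norm_norm, inv_mul_cancel₀ h0.ne'])
    refine ⟨‖ξ‖ • x, ?_⟩
    rw [map_smul, hx, smul_smul, mul_inv_cancel₀ h0.ne', one_smul]

lemma almost_norm {X : Type} [NormedAddCommGroup X] [NormedSpace ℝ X] (ξ : StrongDual ℝ X)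
    (hξ : ‖ξ‖ = 1) {δ : ℝ} (hδ : 0 < δ) : ∃ f : X, ‖f‖ = 1 ∧ 1 - δ < ξ f := by
  by_contra hcon
  push Not at hcon
  set c : ℝ := max 0 (1 - δ) with hc
  have h2 : ‖ξ‖ ≤ c := by
    refine ContinuousLinearMap.opNorm_le_of_unit_norm (le_max_left _ _) fun z hz => ?_
    rw [Real.norm_eq_abs, abs_le]
    constructor
    · have := (hcon (-z) (by rw [norm_neg, hz])).trans (le_max_right 0 _)
      rw [map_neg] at this
      linarith
    · exact (hcon z hz).trans (le_max_right _ _)
  have h3 : c < 1 := max_lt one_pos (by linarith)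
  linarith

/-- the Milman-Pettis theorem -/
theorem refl_of_uc [CompleteSpace E] (hu : UniformConvexSpace E) : Refl E := by
  rcases subsingleton_or_nontrivial E with hE | hE
  · intro ξ
    refine ⟨0, ?_⟩
    ext f
    have hf : f = 0 := by
      ext x
      rw [Subsingleton.elim x 0, map_zero, map_zero]
    rw [hf, map_zero, map_zero]
  refine surj_of_approx (W := StrongDual ℝ (StrongDual ℝ E))
    (NormedSpace.inclusionInDoubleDualLi (E := E) ℝ) fun ξ hξ ε hε => ?_
  obtain ⟨δ, hδ, hδ2⟩ := slices_uc hu (half_pos hε)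
  obtain ⟨f, hf, hξf⟩ := almost_norm ξ hξ (half_pos hδ)
  obtain ⟨x, hx, hfx⟩ := att_of_uc hu f
  refine ⟨x, ?_⟩
  refine lt_of_le_of_lt ?_ (half_lt_self hε)
  refine ContinuousLinearMap.opNorm_le_bound _ (by positivity) fun g => ?_
  refine le_of_forall_pos_le_add fun η hη => ?_
  obtain ⟨y, hy, h1, h2⟩ := goldstine2 ξ hξ.le f g (lt_min (half_pos hδ) hη)
  have h3 := (abs_lt.1 (h1.trans_le (min_le_left _ _))).1
  have h4 := hδ2 f x y hf hx (by rw [hfx, hf]) hy (by linarith)
  have h5 : (ξ - NormedSpace.inclusionInDoubleDualLi (E := E) ℝ x) g =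
      -(g y - ξ g) - g (x - y) := by
    have h9 : (ξ - NormedSpace.inclusionInDoubleDualLi (E := E) ℝ x) g = ξ g - g x := rfl
    rw [map_sub, h9]
    ring
  rw [h5, Real.norm_eq_abs]
  have h6 : |g (x - y)| ≤ ‖g‖ * (ε / 2) :=
    (g.le_opNorm _).trans (mul_le_mul_of_nonneg_left h4.le (norm_nonneg _))
  have h7 : |g y - ξ g| ≤ η := (h2.trans_le (min_le_right _ _)).le
  have h8 := abs_sub (-(g y - ξ g)) (g (x - y))
  rw [abs_neg] at h8
  linarith

/-- functionals on a reflexive space attain their norm -/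
theorem att_of_refl [Nontrivial E] (h : Refl E) (f : StrongDual ℝ E) : Att f := by
  rcases eq_or_ne f 0 with rfl | hf
  · obtain ⟨x, hx⟩ := exists_norm_eq E (zero_le_one (α := ℝ))
    exact ⟨x, hx, by simp⟩
  · obtain ⟨ξ, h1, h2⟩ := exists_dual_vector ℝ f (norm_ne_zero_iff.2 hf)
    obtain ⟨x, rfl⟩ := h ξ
    refine ⟨x, ?_, h2⟩
    have h3 := (NormedSpace.inclusionInDoubleDualLi (E := E) ℝ).norm_map x
    have h4 : NormedSpace.inclusionInDoubleDualLi (E := E) ℝ x =
      NormedSpace.inclusionInDoubleDual ℝ E x := rfl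
    rw [h4, h1] at h3
    exact h3.symm

/-- a space with reflexive dual is reflexive -/
theorem refl_of_dual [CompleteSpace E] (h : Refl (StrongDual ℝ E)) : Refl E := by
  set J := NormedSpace.inclusionInDoubleDual ℝ E with hJ
  have hcl : IsClosed (Set.range J) := closed_range
  intro ξ
  by_contra hcon
  have hcon' : ξ ∉ LinearMap.range J.toLinearMap := fun ⟨x, hx⟩ => hcon ⟨x, hx⟩
  obtain ⟨ζ, u, h1, h2⟩ := geometric_hahn_banach_closed_point
    (s := Set.range J) (x := ξ) ((LinearMap.range J.toLinearMap).convex) hcl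
    (fun ⟨x, hx⟩ => hcon ⟨x, hx⟩)
  obtain ⟨f, rfl⟩ := h ζ
  have h3 : ∀ x : E, f x < u := fun x => h1 (J x) ⟨x, rfl⟩
  have h4 : f = 0 := by
    ext x
    by_contra hfx
    change f x ≠ 0 at hfx
    have h5 := h3 ((u / f x) • x)
    rw [map_smul, smul_eq_mul, div_mul_cancel₀ _ hfx] at h5
    exact lt_irrefl _ h5
  rw [h4, map_zero] at h2
  have h5 := h3 0
  rw [map_zero] at h5
  simp only [zero_apply] at h2
  linarith

/-- the dual of a reflexive separable space is separable -/
theorem dual_separable [SeparableSpace E] (h : Refl E) : SeparableSpace (StrongDual ℝ E) := by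
  have h1 : ∀ x : E, ∃ f : StrongDual ℝ E, ‖f‖ ≤ 1 ∧ f x = ‖x‖ := by
    intro x
    obtain ⟨f, hf, hfx⟩ := exists_dual_vector'' ℝ x
    exact ⟨f, hf, hfx⟩
  choose d hd1 hd2 using h1
  set S : Set (StrongDual ℝ E) := Set.range fun n : ℕ => d (denseSeq E n) with hS
  have hSc : S.Countable := Set.countable_range _
  have hsep : IsSeparable ((Submodule.span ℝ S).topologicalClosure : Set (StrongDual ℝ E)) :=
    (hSc.isSeparable.span (R := ℝ)).closure
  have htop : (Submodule.span ℝ S).topologicalClosure = ⊤ := by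
    by_contra hcon
    obtain ⟨g, hg⟩ : ∃ g : StrongDual ℝ E, g ∉ (Submodule.span ℝ S).topologicalClosure := by
      by_contra hcon2
      push Not at hcon2
      exact hcon (eq_top_iff.2 fun g _ => hcon2 g)
    obtain ⟨ζ, u, h1, h2⟩ := geometric_hahn_banach_closed_point
      (s := ((Submodule.span ℝ S).topologicalClosure : Set (StrongDual ℝ E))) (x := g)
      ((Submodule.span ℝ S).topologicalClosure.convex)
      (Submodule.isClosed_topologicalClosure _) hg
    obtain ⟨x, rfl⟩ := h ζ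
    have h3 : ∀ f ∈ S, f x = 0 := by
      intro f hf
      by_contra hfx
      have h5 := h1 ((u / f x) • f) (Submodule.smul_mem _ _
        (Submodule.le_topologicalClosure _ (Submodule.subset_span hf)))
      rw [NormedSpace.dual_def, smul_apply, smul_eq_mul, div_mul_cancel₀ _ hfx] at h5
      exact lt_irrefl _ h5
    have hx : x = 0 := by
      by_contra hx
      have hx0 : 0 < ‖x‖ := norm_pos_iff.2 hx
      obtain ⟨n, hn⟩ := Metric.denseRange_iff.1 (denseRange_denseSeq E) x (‖x‖ / 2) (by positivity)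
      rw [dist_eq_norm] at hn
      have h4 := h3 _ ⟨n, rfl⟩
      have h5 := hd2 (denseSeq E n)
      have h6 : d (denseSeq E n) (denseSeq E n - x) = ‖denseSeq E n‖ := by
        rw [map_sub, h4, sub_zero, h5]
      have h7 := (le_abs_self _).trans ((d (denseSeq E n)).le_opNorm (denseSeq E n - x))
      rw [h6] at h7
      have h8 : ‖d (denseSeq E n)‖ * ‖denseSeq E n - x‖ ≤ 1 * ‖denseSeq E n - x‖ :=
        mul_le_mul_of_nonneg_right (hd1 _) (norm_nonneg _)
      rw [norm_sub_rev] at hn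
      have h9 : ‖x‖ ≤ ‖denseSeq E n‖ + ‖denseSeq E n - x‖ := by
        have := norm_sub_le (denseSeq E n) (denseSeq E n - x)
        rwa [sub_sub_cancel] at this
      linarith
    rw [NormedSpace.dual_def, hx, map_zero] at h2
    have h6 := h1 0 (Submodule.zero_mem _)
    rw [map_zero] at h6
    linarith
  rw [htop] at hsep
  exact isSeparable_univ_iff.1 hsep

/-- the isometry of the dual space -/
noncomputable def acE (T : E ≃ₗᵢ[ℝ] E) : StrongDual ℝ E ≃ₗᵢ[ℝ] StrongDual ℝ E where
  toFun := ac T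
  invFun := ac T.symm
  left_inv := fun f => by ext x; simp
  right_inv := fun f => by ext x; simp
  map_add' := fun f g => by ext x; rfl
  map_smul' := fun c f => by ext x; rfl
  norm_map' := fun f => ac_norm T f

/-- the dual norm is transitive -/
theorem tr_dual [CompleteSpace E] [SeparableSpace E] (htr : Tr E)
    (ha : ∀ f : StrongDual ℝ E, Att f) : Tr (StrongDual ℝ E) := by
  intro f g hf hg
  obtain ⟨x, hx, hfx⟩ := ha f
  obtain ⟨y, hy, hgy⟩ := ha g
  obtain ⟨T, hT⟩ := htr x y hx hy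
  refine ⟨acE T, ?_⟩
  exact Pool.Agent.H821.Rot.unique_support htr hy _ _ (show ‖ac T f‖ ≤ 1 by rw [ac_norm, hf])
    (show ac T f y = 1 by rw [ac_apply, ← hT, T.symm_apply_apply, hfx, hf]) hg.le
    (by rw [hgy, hg])

/-- **The dual space is uniformly convex.** -/
theorem ucDual [CompleteSpace E] [SeparableSpace E] [Nontrivial E] (htr : Tr E) (h : Refl E) :
    UniformConvexSpace (StrongDual ℝ E) := by
  have ha : ∀ f : StrongDual ℝ E, Att f := att_of_refl h
  have hsep := dual_separable h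
  obtain ⟨x₀, hx₀⟩ := exists_norm_eq E (zero_le_one (α := ℝ))
  obtain ⟨f₀, hf₀, -⟩ := exists_supp hx₀
  have hnt : Nontrivial (StrongDual ℝ E) := ⟨f₀, 0, norm_ne_zero_iff.1 (by rw [hf₀]; exact one_ne_zero)⟩
  refine ucN (tr_dual htr ha) ?_
  have h1 : {ξ : StrongDual ℝ (StrongDual ℝ E) | Att ξ} = Set.univ := by
    rw [Set.eq_univ_iff_forall]
    intro ξ
    rcases eq_or_ne ξ 0 with rfl | hξ
    · exact ⟨f₀, hf₀, by simp⟩
    obtain ⟨x, rfl⟩ := h ξ
    have hx : x ≠ 0 := by
      rintro rfl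
      exact hξ (map_zero _)
    obtain ⟨f, h2, h3⟩ := exists_dual_vector ℝ x (norm_ne_zero_iff.2 hx)
    refine ⟨f, h2, ?_⟩
    rw [NormedSpace.dual_def, h3]
    exact ((NormedSpace.inclusionInDoubleDualLi (E := E) ℝ).norm_map x).symm
  rw [h1]
  exact not_isMeagre_of_isOpen isOpen_univ Set.univ_nonempty

end Pool.Agent.J6H34.RT
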