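import Pool.Agent.J6H34.RT.Bp
import Pool.Agent.H821.Rot.Dual

/-!
# Separable spaces with a transitive norm are strictly convex

A maximal face of the unit ball is a closed convex set on which a group of affine isometries acts transitively.
It has a point which is not a support point (a dense combination of its points), and, by Bishop-Phelps, if it
has more than one point, a point which is a proper support point.
-/

set_option autoImplicit false

namespace Pool.Agent.J6H34.RT

open TopologicalSpace Metric Filter Topology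

variable {E : Type} [NormedAddCommGroup E] [NormedSpace ℝ E]

/-- the isometries are transitive on the unit sphere -/
def Tr (E : Type) [NormedAddCommGroup E] [NormedSpace ℝ E] : Prop :=
  ∀ x y : E, ‖x‖ = 1 → ‖y‖ = 1 → ∃ T : E ≃ₗᵢ[ℝ] E, T x = y

/-- the action on functionals -/
noncomputable def ac (T : E ≃ₗᵢ[ℝ] E) (f : StrongDual ℝ E) : StrongDual ℝ E :=
  f.comp (T.symm : E →L[ℝ] E)

@[simp] lemma ac_apply (T : E ≃ₗᵢ[ℝ] E) (f : StrongDual ℝ E) (x : E) :
    ac T f x = f (T.symm x) := rfl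

lemma ac_norm_le (T : E ≃ₗᵢ[ℝ] E) (f : StrongDual ℝ E) : ‖ac T f‖ ≤ ‖f‖ := by
  refine ContinuousLinearMap.opNorm_le_bound _ (norm_nonneg _) fun x => ?_
  rw [ac_apply]
  refine (f.le_opNorm _).trans ?_
  rw [T.symm.norm_map]

lemma ac_norm (T : E ≃ₗᵢ[ℝ] E) (f : StrongDual ℝ E) : ‖ac T f‖ = ‖f‖ := by
  refine le_antisymm (ac_norm_le T f) ?_
  have h := ac_norm_le T.symm (ac T f)
  have h1 : ac T.symm (ac T f) = f := by
    ext x
    simp
  rwa [h1] at h

lemma le_of_norm {f : StrongDual ℝ E} (hf : ‖f‖ ≤ 1) {x : E} (hx : ‖x‖ ≤ 1) : f x ≤ 1 := by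
  have h1 := (le_abs_self (f x)).trans (f.le_opNorm x)
  nlinarith [norm_nonneg f, norm_nonneg x]

lemma norm_of_att {f : StrongDual ℝ E} (hf : ‖f‖ ≤ 1) {x : E} (hx : ‖x‖ ≤ 1) (h : f x = 1) :
    ‖x‖ = 1 := by
  refine le_antisymm hx ?_
  have h1 := (le_abs_self (f x)).trans (f.le_opNorm x)
  nlinarith [norm_nonneg f, norm_nonneg x]

/-- a point of the face which is not a proper support point -/
lemma exists_ns [CompleteSpace E] [SeparableSpace E] (f : StrongDual ℝ E)
    (hne : ∃ z : E, ‖z‖ ≤ 1 ∧ f z = 1) :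
    ∃ p : E, ‖p‖ ≤ 1 ∧ f p = 1 ∧ ∀ χ : StrongDual ℝ E,
      (∀ z, ‖z‖ ≤ 1 → f z = 1 → χ z ≤ χ p) → ∀ z, ‖z‖ ≤ 1 → f z = 1 → χ z = χ p := by
  have : SecondCountableTopology E := UniformSpace.secondCountable_of_separable E
  set F : Set E := {z | ‖z‖ ≤ 1 ∧ f z = 1} with hF
  have hFne : Nonempty F := by
    obtain ⟨z, hz⟩ := hne
    exact ⟨⟨z, hz⟩⟩
  set x : ℕ → F := denseSeq F with hx
  have hx1 : ∀ n, ‖(x n : E)‖ ≤ 1 := fun n => (x n).2.1
  have hx2 : ∀ n, f (x n) = 1 := fun n => (x n).2.2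
  set w : ℕ → ℝ := fun n => 1 / 2 / 2 ^ n with hw
  have hw0 : ∀ n, 0 < w n := fun n => by rw [hw]; positivity
  have hw1 : HasSum w 1 := hasSum_geometric_two' 1
  have hs : Summable fun n => w n • (x n : E) := by
    refine Summable.of_norm_bounded hw1.summable fun n => ?_
    rw [norm_smul, Real.norm_of_nonneg (hw0 n).le]
    have := hx1 n
    have := hw0 n
    nlinarith
  set p : E := ∑' n, w n • (x n : E) with hp
  have hps : HasSum (fun n => w n • (x n : E)) p := hs.hasSum
  refine ⟨p, ?_, ?_, ?_⟩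
  · refine (tsum_of_norm_bounded hw1 fun n => ?_)
    rw [norm_smul, Real.norm_of_nonneg (hw0 n).le]
    have := hx1 n
    have := hw0 n
    nlinarith
  · have h1 := f.hasSum hps
    have h2 : (fun n => f (w n • (x n : E))) = w := by
      funext n
      rw [map_smul, hx2, smul_eq_mul, mul_one]
    rw [h2] at h1
    exact h1.unique hw1
  · intro χ hχ z hz1 hz2
    have h1 := χ.hasSum hps
    have h2 := (hw1.mul_right (χ p)).sub h1
    rw [one_mul, sub_self] at h2
    have h3 : ∀ n, 0 ≤ w n * χ p - χ (w n • (x n : E)) := by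
      intro n
      rw [map_smul, smul_eq_mul, ← mul_sub]
      exact mul_nonneg (hw0 n).le (sub_nonneg.2 (hχ _ (hx1 n) (hx2 n)))
    have h4 := (hasSum_zero_iff_of_nonneg h3).1 h2
    have h5 : ∀ n, χ (x n) = χ p := by
      intro n
      have h6 := congrFun h4 n
      simp only [map_smul, smul_eq_mul, Pi.zero_apply] at h6
      have := hw0 n
      have h7 : w n * (χ p - χ (x n)) = 0 := by linarith
      rcases mul_eq_zero.1 h7 with h8 | h8
      · linarith
      · linarith
    have hcl : IsClosed {z : F | χ (z : E) = χ p} :=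
      isClosed_eq (χ.continuous.comp continuous_subtype_val) continuous_const
    have h6 : (⟨z, hz1, hz2⟩ : F) ∈ {z : F | χ (z : E) = χ p} := by
      have h7 : closure (Set.range x) ⊆ {z : F | χ (z : E) = χ p} := by
        refine hcl.closure_subset_iff.2 ?_
        rintro _ ⟨n, rfl⟩
        exact h5 n
      exact h7 (denseRange_denseSeq F _)
    exact h6

/-- **Maximal faces are points.** -/
theorem strict [CompleteSpace E] [SeparableSpace E] (htr : Tr E) {f : StrongDual ℝ E}
    (hf : ‖f‖ ≤ 1) {x y : E} (hx : ‖x‖ ≤ 1) (hy : ‖y‖ ≤ 1) (hfx : f x = 1) (hfy : f y = 1) :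
    x = y := by
  by_contra hxy
  have hxy0 : 0 < ‖x - y‖ := norm_pos_iff.2 (sub_ne_zero.2 hxy)
  obtain ⟨ψ₀, h1, h2⟩ := exists_dual_vector ℝ (x - y) hxy0.ne'
  have h2' : ψ₀ (x - y) = ‖x - y‖ := h2
  set F : Set E := {z | ‖z‖ ≤ 1 ∧ f z = 1} with hF
  have hFc : IsClosed F := by
    rw [hF]
    exact (isClosed_le continuous_norm continuous_const).inter
      (isClosed_eq f.continuous continuous_const)
  have hFx : Convex ℝ F := by
    intro a ha b hb s t hs ht hst
    refine ⟨?_, ?_⟩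
    · refine (norm_add_le _ _).trans ?_
      rw [norm_smul, norm_smul, Real.norm_of_nonneg hs, Real.norm_of_nonneg ht]
      have h3 := mul_le_mul_of_nonneg_left ha.1 hs
      have h4 := mul_le_mul_of_nonneg_left hb.1 ht
      linarith
    · rw [map_add, map_smul, map_smul, ha.2, hb.2, smul_eq_mul, smul_eq_mul, mul_one, mul_one,
        hst]
  obtain ⟨ψ, h3, q, hq, -, h4⟩ := bp_set hFx hFc ψ₀ (ε := 1 / 4) (δ := 2) (by norm_num)
    (y₀ := x) ⟨hx, hfx⟩ (fun z hz => by
      have h5 := le_of_norm h1.le hz.1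
      have h6 := le_of_norm (f := -ψ₀) (by rw [norm_neg]; exact h1.le) hx
      simp only [neg_apply] at h6
      linarith)
  obtain ⟨p, hp1, hp2, hp3⟩ := exists_ns f ⟨x, hx, hfx⟩
  have hqn : ‖q‖ = 1 := norm_of_att hf hq.1 hq.2
  obtain ⟨T, hT⟩ := htr q p hqn (norm_of_att hf hp1 hp2)
  have hsup : ∀ S : E ≃ₗᵢ[ℝ] E, ∀ a : E, ‖a‖ ≤ 1 → f a = 1 → f (S.symm a) = 1 → ac S f = f := by
    intro S a ha1 ha2 ha3
    exact Pool.Agent.H821.Rot.unique_support htr (norm_of_att hf ha1 ha2) _ _
      (by rw [ac_norm]; exact hf) (by rw [ac_apply]; exact ha3) hf ha2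
  have hTf : ac T f = f := hsup T p hp1 hp2 (by rw [← hT, T.symm_apply_apply]; exact hq.2)
  have hinv : ∀ a : E, f (T.symm a) = f a := by
    intro a
    have := congrArg (fun g : StrongDual ℝ E => g a) hTf
    simpa using this
  have hinv' : ∀ a : E, f (T a) = f a := by
    intro a
    rw [← hinv (T a), T.symm_apply_apply]
  have h5 := hp3 (ac T ψ) (fun z hz1 hz2 => by
    rw [ac_apply, ac_apply, ← hT, T.symm_apply_apply]
    exact h4 _ ⟨by rw [T.symm.norm_map]; exact hz1, by rw [hinv]; exact hz2⟩)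
  have h6 : ∀ z, ‖z‖ ≤ 1 → f z = 1 → ψ z = ac T ψ p := by
    intro z hz1 hz2
    have := h5 (T z) (by rw [T.norm_map]; exact hz1) (by rw [hinv']; exact hz2)
    rw [ac_apply, T.symm_apply_apply] at this
    exact this
  have h7 : ψ (x - y) = 0 := by
    rw [map_sub, h6 x hx hfx, h6 y hy hfy, sub_self]
  have h8 : |(ψ - ψ₀) (x - y)| ≤ 1 / 4 * ‖x - y‖ := by
    refine ((ψ - ψ₀).le_opNorm _).trans ?_
    gcongr
  have h9 : (ψ - ψ₀) (x - y) = -‖x - y‖ := by
    rw [sub_apply, h7, h2', zero_sub]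
  rw [h9, abs_neg, abs_of_pos hxy0] at h8
  linarith

/-- a separable space with a transitive norm is strictly convex -/
theorem strictConvex [CompleteSpace E] [SeparableSpace E] (htr : Tr E) :
    StrictConvexSpace ℝ E := by
  refine StrictConvexSpace.of_norm_add_ne_two fun x y hx hy hxy h2 => hxy ?_
  obtain ⟨f, h3, h4⟩ := exists_dual_vector ℝ (x + y) (by rw [h2]; norm_num)
  have h4' : f (x + y) = 2 := by
    rw [h4, h2]
    rfl
  rw [map_add] at h4'
  have h5 := le_of_norm h3.le hx.le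
  have h6 := le_of_norm h3.le hy.le
  exact strict htr h3.le hx.le hy.le (by linarith) (by linarith)

end Pool.Agent.J6H34.RT
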