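import Pool.Agent.J6H34.RT.Refl

/-!
# Topologies between the weak* and the norm topology
-/

set_option autoImplicit false

namespace Pool.Agent.J6H34.RT

open TopologicalSpace Metric Filter Topology

variable {E : Type} [NormedAddCommGroup E] [NormedSpace ℝ E]

/-- the norm topology -/
@[reducible] noncomputable def nT (E : Type) [NormedAddCommGroup E] [NormedSpace ℝ E] : TopologicalSpace (YN E) :=
  TopologicalSpace.induced (fun y : YN E => y.1) inferInstance

/-- If the norm attaining functionals of norm one are not of first category in themselves for some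
invariant topology between the weak* and the norm topology, the space is uniformly convex. -/
theorem ucTop [CompleteSpace E] [SeparableSpace E] [Nontrivial E] (htr : Tr E)
    (τ : TopologicalSpace (YN E)) (h1 : ∀ T, @Continuous _ _ τ τ (aN (E := E) T))
    (h2 : ∀ x : E, @Continuous _ _ τ _ fun y : YN E => y.1 x)
    (h3 : ∀ O : Set (YN E), IsOpen[τ] O → IsOpen[nT E] O)
    (h4 : ¬ @IsMeagre _ τ (Set.univ : Set (YN E))) : UniformConvexSpace E := by
  have orb : @Orb E _ _ (YN E) τ (fun y => y.1) aN :=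
    { inj := Subtype.val_injective
      cont := h1
      act := fun T y => rfl
      eval := h2
      trans := by
        rintro ⟨f, hf, x, hx, hfx⟩ ⟨g, hg, y, hy, hgy⟩
        obtain ⟨T, hT⟩ := htr x y hx hy
        refine ⟨T, Subtype.ext ?_⟩
        exact Pool.Agent.H821.Rot.unique_support htr hy _ _ (by rw [aN, ac_norm, hf])
          (by rw [aN, ac_apply, ← hT, T.symm_apply_apply, hfx, hf]) hg.le (by rw [hgy, hg])
      nonmeagre := h4 }
  refine @Orb.uniformConvex E _ _ (YN E) τ _ _ _ _ _ orb htr ?_ ?_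
  · intro y0 O hO hy0
    obtain ⟨U, hU, rfl⟩ := isOpen_induced_iff.1 (h3 O hO)
    obtain ⟨ρ, hρ, hρU⟩ := Metric.isOpen_iff.1 hU y0.1 hy0
    exact ⟨ρ, hρ, fun y1 hy1 => hρU (by rw [mem_ball, dist_eq_norm]; exact hy1)⟩
  · intro f hf hfa
    exact ⟨⟨f, hf, hfa⟩, rfl⟩

/-- if all functionals attain their norm, the sphere is not of first category -/
theorem nonmeagre_all [Nontrivial E] (h : ∀ f : StrongDual ℝ E, Att f) :
    ¬ IsMeagre (Set.univ : Set (YN E)) := by
  refine nonmeagreN ?_
  have h1 : {f : StrongDual ℝ E | Att f} = Set.univ := Set.eq_univ_iff_forall.2 h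
  rw [h1]
  exact not_isMeagre_of_isOpen isOpen_univ Set.univ_nonempty

theorem nonmeagre_allW [Nontrivial E] (h : ∀ f : StrongDual ℝ E, Att f) :
    ¬ IsMeagre {f : {f : WeakDual ℝ E // ‖WeakDual.toStrongDual f‖ = 1} |
      Att (WeakDual.toStrongDual f.1)} := by
  have h1 : {f : {f : WeakDual ℝ E // ‖WeakDual.toStrongDual f‖ = 1} |
      Att (WeakDual.toStrongDual f.1)} = Set.univ := Set.eq_univ_iff_forall.2 fun f => h _
  rw [h1]
  have := baireW (E := E)
  refine not_isMeagre_of_isOpen isOpen_univ ?_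
  obtain ⟨x₀, hx₀⟩ := exists_norm_eq E (zero_le_one (α := ℝ))
  obtain ⟨f₀, hf₀, -⟩ := exists_supp hx₀
  exact ⟨⟨StrongDual.toWeakDual f₀, hf₀⟩, trivial⟩

end Pool.Agent.J6H34.RT
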