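import Pool.Agent.J6H34.RT.Eff

/-!
# Uniform convexity

If the norm attaining functionals of norm one are not of first category, then the points of the unit ball
where a functional is almost maximal are near its maximum point, uniformly.
-/

set_option autoImplicit false

namespace Pool.Agent.J6H34.RT

open TopologicalSpace Metric Filter Topology

variable {E : Type} [NormedAddCommGroup E] [NormedSpace ℝ E]

/-- norm attaining functionals -/
def Att (f : StrongDual ℝ E) : Prop := ∃ x : E, ‖x‖ = 1 ∧ f x = ‖f‖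

lemma Att.ac {f : StrongDual ℝ E} (h : Att f) (T : E ≃ₗᵢ[ℝ] E) : Att (ac T f) := by
  obtain ⟨x, hx1, hx2⟩ := h
  refine ⟨T x, by rw [T.norm_map, hx1], ?_⟩
  rw [ac_apply, T.symm_apply_apply, ac_norm, hx2]

/-- a support functional -/
lemma exists_supp {x : E} (hx : ‖x‖ = 1) : ∃ f : StrongDual ℝ E, ‖f‖ = 1 ∧ f x = 1 := by
  obtain ⟨f, h1, h2⟩ := exists_dual_vector ℝ x (by rw [hx]; exact one_ne_zero)
  refine ⟨f, h1, ?_⟩
  rw [h2, hx]
  rfl

variable {Y : Type} [TopologicalSpace Y] {j : Y → StrongDual ℝ E} {a : (E ≃ₗᵢ[ℝ] E) → Y → Y}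

/-- the maximum points of functionals near `f₀` are near the one of `f₀` -/
theorem Orb.near_pt [SeparableSpace E] [CompleteSpace E] (h : Orb j a) (htr : Tr E)
    (hfine : ∀ (y0 : Y) (O : Set Y), IsOpen O → y0 ∈ O →
      ∃ ρ : ℝ, 0 < ρ ∧ ∀ y1, ‖j y1 - j y0‖ < ρ → y1 ∈ O)
    (hsurj : ∀ f : StrongDual ℝ E, ‖f‖ = 1 → Att f → ∃ y, j y = f)
    {f₀ : StrongDual ℝ E} (hf₀ : ‖f₀‖ = 1) {x₀ : E} (hx₀ : ‖x₀‖ = 1) (hfx : f₀ x₀ = 1)
    {κ : ℝ} (hκ : 0 < κ) :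
    ∃ ρ : ℝ, 0 < ρ ∧ ∀ f₁ : StrongDual ℝ E, ‖f₁‖ = 1 → ‖f₁ - f₀‖ < ρ → ∀ x₁ : E, ‖x₁‖ = 1 →
      f₁ x₁ = 1 → ‖x₁ - x₀‖ ≤ κ := by
  obtain ⟨y0, hy0⟩ := hsurj f₀ hf₀ ⟨x₀, hx₀, by rw [hfx, hf₀]⟩
  obtain ⟨O, hO1, hO2, hO3⟩ := h.micro y0 {x₀} hκ
  obtain ⟨ρ, hρ, hρ2⟩ := hfine y0 O hO1 hO2
  refine ⟨ρ, hρ, fun f₁ hf₁ hd x₁ hx₁ hfx₁ => ?_⟩
  obtain ⟨y1, hy1⟩ := hsurj f₁ hf₁ ⟨x₁, hx₁, by rw [hfx₁, hf₁]⟩
  obtain ⟨T, hT1, hT2⟩ := hO3 y1 (hρ2 y1 (by rw [hy1, hy0]; exact hd))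
  have h1 : f₁ (T x₀) = 1 := by
    rw [← hy1, ← hT2, h.act, ac_apply, T.symm_apply_apply, hy0, hfx]
  have h2 : x₁ = T x₀ := strict htr hf₁.le hx₁.le (by rw [T.norm_map, hx₀]) hfx₁ h1
  rw [h2]
  exact hT1 x₀ (Finset.mem_singleton_self _)

/-- slices of the unit ball are small, uniformly -/
theorem slices [SeparableSpace E] [CompleteSpace E] (htr : Tr E) {f₀ : StrongDual ℝ E} (hf₀ : ‖f₀‖ = 1) {x₀ : E}
    (hx₀ : ‖x₀‖ = 1) (hfx : f₀ x₀ = 1)
    (hn : ∀ κ : ℝ, 0 < κ → ∃ ρ : ℝ, 0 < ρ ∧ ∀ f₁ : StrongDual ℝ E, ‖f₁‖ = 1 → ‖f₁ - f₀‖ < ρ →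
      ∀ x₁ : E, ‖x₁‖ = 1 → f₁ x₁ = 1 → ‖x₁ - x₀‖ ≤ κ)
    {ε : ℝ} (hε : 0 < ε) :
    ∃ δ : ℝ, 0 < δ ∧ ∀ (f : StrongDual ℝ E) (x y : E), ‖f‖ = 1 → ‖x‖ = 1 → f x = 1 → ‖y‖ ≤ 1 →
      1 - δ ≤ f y → ‖y - x‖ ≤ ε := by
  obtain ⟨ρ, hρ, hρ2⟩ := hn (ε / 2) (by positivity)
  set η : ℝ := min (ρ / 4) (1 / 2) with hη
  have hη0 : 0 < η := lt_min (by positivity) (by norm_num)
  have hη1 : η ≤ ρ / 4 := min_le_left _ _
  have hη2 : η ≤ 1 / 2 := min_le_right _ _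
  refine ⟨η * (ε / 2), by positivity, fun f x y hf hx hfx' hy hfy => ?_⟩
  -- reduction to `f₀`
  obtain ⟨T, hT⟩ := htr x₀ x hx₀ hx
  have hfT : f = ac T f₀ := Pool.Agent.H821.Rot.unique_support htr hx _ _ hf.le hfx'
    (by rw [ac_norm, hf₀]) (by rw [ac_apply, ← hT, T.symm_apply_apply, hfx])
  have key : ∀ y : E, ‖y‖ ≤ 1 → 1 - η * (ε / 2) ≤ f₀ y → ‖y - x₀‖ ≤ ε := by
    intro y hy hfy
    obtain ⟨Φ, hΦ, x₁, hx₁, h1, h2⟩ := bp_set (convex_closedBall (0 : E) 1) isClosed_closedBall f₀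
      hη0 (δ := η * (ε / 2)) (y₀ := y) (by rw [mem_closedBall_zero_iff]; exact hy) (fun z hz => by
        have := le_of_norm hf₀.le (mem_closedBall_zero_iff.1 hz)
        linarith)
    have hΦn : |‖Φ‖ - 1| ≤ η := by
      rw [← hf₀]
      exact (abs_norm_sub_norm_le _ _).trans hΦ
    have hΦn1 := (abs_le.1 hΦn).1
    have hΦ0 : 0 < ‖Φ‖ := by linarith
    have hΦx : Φ x₁ = ‖Φ‖ := by
      refine le_antisymm ?_ ?_
      · refine ((le_abs_self _).trans (Φ.le_opNorm _)).trans ?_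
        have := mem_closedBall_zero_iff.1 hx₁
        nlinarith
      · refine ContinuousLinearMap.opNorm_le_of_unit_norm ?_ fun z hz => ?_
        · have := h2 0 (by rw [mem_closedBall_zero_iff, norm_zero]; exact zero_le_one)
          rwa [map_zero] at this
        · rw [Real.norm_eq_abs, abs_le]
          constructor
          · have := h2 (-z) (by rw [mem_closedBall_zero_iff, norm_neg, hz])
            rw [map_neg] at this
            linarith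
          · exact h2 z (by rw [mem_closedBall_zero_iff, hz])
    set f₁ : StrongDual ℝ E := ‖Φ‖⁻¹ • Φ with hf₁
    have hf₁n : ‖f₁‖ = 1 := by
      rw [hf₁, norm_smul, norm_inv, norm_norm, inv_mul_cancel₀ hΦ0.ne']
    have hf₁x : f₁ x₁ = 1 := by
      rw [hf₁, smul_apply, hΦx, smul_eq_mul, inv_mul_cancel₀ hΦ0.ne']
    have hx₁n : ‖x₁‖ = 1 := norm_of_att hf₁n.le (mem_closedBall_zero_iff.1 hx₁) hf₁x
    have hd : ‖f₁ - f₀‖ < ρ := by
      have e1 : f₁ - f₀ = (f₁ - Φ) + (Φ - f₀) := by abel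
      have e2 : f₁ - Φ = (‖Φ‖⁻¹ - 1) • Φ := by
        ext v
        simp only [hf₁, sub_apply, smul_apply, smul_eq_mul]
        ring
      have e3 : ‖f₁ - Φ‖ ≤ η := by
        rw [e2, norm_smul, Real.norm_eq_abs]
        have e4 : |‖Φ‖⁻¹ - 1| * ‖Φ‖ = |‖Φ‖ - 1| := by
          rw [← abs_of_pos hΦ0, ← abs_mul, abs_of_pos hΦ0, sub_mul, inv_mul_cancel₀ hΦ0.ne',
            one_mul, abs_sub_comm]
        rw [e4]
        exact hΦn
      rw [e1]
      refine (norm_add_le _ _).trans_lt ?_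
      linarith
    have h3 := hρ2 f₁ hf₁n hd x₁ hx₁n hf₁x
    have h4 : ‖x₁ - y‖ ≤ ε / 2 := le_of_mul_le_mul_left h1 hη0
    have h5 : y - x₀ = -(x₁ - y) + (x₁ - x₀) := by abel
    rw [h5]
    refine (norm_add_le _ _).trans ?_
    rw [norm_neg]
    linarith
  have h6 := key (T.symm y) (by rw [T.symm.norm_map]; exact hy) (by
    rw [hfT, ac_apply] at hfy
    exact hfy)
  have h7 : y - x = T (T.symm y - x₀) := by
    rw [map_sub, T.apply_symm_apply, hT]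
  rw [h7, T.norm_map]
  exact h6

/-- uniformly small slices give uniform convexity -/
theorem uc_of_slices (hs : ∀ ε : ℝ, 0 < ε → ∃ δ : ℝ, 0 < δ ∧ ∀ (f : StrongDual ℝ E) (x y : E),
    ‖f‖ = 1 → ‖x‖ = 1 → f x = 1 → ‖y‖ ≤ 1 → 1 - δ ≤ f y → ‖y - x‖ ≤ ε) :
    UniformConvexSpace E := by
  constructor
  intro ε hε
  obtain ⟨δ, hδ, hδ2⟩ := hs (ε / 4) (by positivity)
  refine ⟨min δ 1, lt_min hδ one_pos, fun x hx y hy hxy => ?_⟩
  by_contra hcon
  push Not at hcon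
  have hm1 : min δ 1 ≤ δ := min_le_left _ _
  have hm2 : min δ 1 ≤ 1 := min_le_right _ _
  have hpos : 0 < ‖x + y‖ := by linarith
  set z : E := ‖x + y‖⁻¹ • (x + y) with hz
  have hzn : ‖z‖ = 1 := by rw [hz, norm_smul, norm_inv, norm_norm, inv_mul_cancel₀ hpos.ne']
  obtain ⟨f, hf, hfz⟩ := exists_supp hzn
  have h1 : f (x + y) = ‖x + y‖ := by
    rw [hz, map_smul, smul_eq_mul, inv_mul_eq_iff_eq_mul₀ hpos.ne', mul_one] at hfz
    exact hfz
  rw [map_add] at h1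
  have h2 := le_of_norm hf.le hx.le
  have h3 := le_of_norm hf.le hy.le
  have h4 := hδ2 f z x hf hzn hfz hx.le (by linarith)
  have h5 := hδ2 f z y hf hzn hfz hy.le (by linarith)
  have h6 : x - y = (x - z) - (y - z) := by abel
  rw [h6] at hxy
  have := norm_sub_le (x - z) (y - z)
  linarith

/-- **Uniform convexity.** -/
theorem Orb.uniformConvex [SeparableSpace E] [CompleteSpace E] [Nontrivial E] (h : Orb j a)
    (htr : Tr E)
    (hfine : ∀ (y0 : Y) (O : Set Y), IsOpen O → y0 ∈ O →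
      ∃ ρ : ℝ, 0 < ρ ∧ ∀ y1, ‖j y1 - j y0‖ < ρ → y1 ∈ O)
    (hsurj : ∀ f : StrongDual ℝ E, ‖f‖ = 1 → Att f → ∃ y, j y = f) : UniformConvexSpace E := by
  obtain ⟨x₀, hx₀⟩ := exists_norm_eq E (zero_le_one (α := ℝ))
  obtain ⟨f₀, hf₀, hfx⟩ := exists_supp hx₀
  exact uc_of_slices fun ε hε => slices htr hf₀ hx₀ hfx
    (fun κ hκ => h.near_pt htr hfine hsurj hf₀ hx₀ hfx hκ) hε

/-- in a uniformly convex space every functional attains its norm -/
theorem att_of_uc [CompleteSpace E] [Nontrivial E] (hu : UniformConvexSpace E)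
    (f : StrongDual ℝ E) : Att f := by
  rcases eq_or_ne f 0 with rfl | hf
  · obtain ⟨x, hx⟩ := exists_norm_eq E (zero_le_one (α := ℝ))
    exact ⟨x, hx, by simp⟩
  have hf0 : 0 < ‖f‖ := norm_pos_iff.2 hf
  have h1 : ∀ n : ℕ, ∃ x : E, ‖x‖ = 1 ∧ ‖f‖ * (1 - 1 / (n + 1)) < f x := by
    intro n
    by_contra hcon
    push Not at hcon
    have hn : (0 : ℝ) < 1 / (n + 1) := by positivity
    have hn1 : (1 : ℝ) / (n + 1) ≤ 1 := by
      rw [div_le_one (by positivity)]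
      have : (0 : ℝ) ≤ n := n.cast_nonneg
      linarith
    have h2 : ‖f‖ ≤ ‖f‖ * (1 - 1 / (n + 1)) := by
      refine ContinuousLinearMap.opNorm_le_of_unit_norm (mul_nonneg hf0.le (by linarith))
        fun z hz => ?_
      rw [Real.norm_eq_abs, abs_le]
      constructor
      · have := hcon (-z) (by rw [norm_neg, hz])
        rw [map_neg] at this
        linarith
      · exact hcon z hz
    nlinarith
  choose x hx1 hx2 using h1
  have hc : CauchySeq x := by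
    rw [Metric.cauchySeq_iff']
    intro ε hε
    obtain ⟨δ, hδ, hδ2⟩ := hu.uniform_convex hε
    obtain ⟨N, hN⟩ := exists_nat_one_div_lt (show (0 : ℝ) < δ / 2 by positivity)
    refine ⟨N, fun n hn => ?_⟩
    by_contra hcon
    push Not at hcon
    rw [dist_eq_norm] at hcon
    have h2 := hδ2 (hx1 n) (hx1 N) hcon
    have h3 := (le_abs_self _).trans (f.le_opNorm (x n + x N))
    rw [map_add] at h3
    have h4 := hx2 n
    have h5 := hx2 N
    have h6 : (1 : ℝ) / (n + 1) ≤ 1 / (N + 1) := by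
      apply one_div_le_one_div_of_le (by positivity)
      have : (N : ℝ) ≤ n := by exact_mod_cast hn
      linarith
    have h7 : ‖f‖ * ‖x n + x N‖ ≤ ‖f‖ * (2 - δ) := mul_le_mul_of_nonneg_left h2 hf0.le
    have h8 : ‖f‖ * (1 - 1 / (n + 1)) + ‖f‖ * (1 - 1 / (N + 1)) < ‖f‖ * (2 - δ) := by linarith
    have h9 : ‖f‖ * ((1 - 1 / (n + 1)) + (1 - 1 / (N + 1))) < ‖f‖ * (2 - δ) := by
      rw [mul_add]; exact h8
    have h10 := lt_of_mul_lt_mul_left h9 hf0.le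
    linarith
  obtain ⟨z, hz⟩ := cauchySeq_tendsto_of_complete hc
  refine ⟨z, ?_, ?_⟩
  · refine tendsto_nhds_unique hz.norm ?_
    simp only [hx1]
    exact tendsto_const_nhds
  · refine le_antisymm ?_ ?_
    · have h2 : ‖z‖ = 1 := by
        refine tendsto_nhds_unique hz.norm ?_
        simp only [hx1]
        exact tendsto_const_nhds
      have h3 := (le_abs_self _).trans (f.le_opNorm z)
      rwa [h2, mul_one] at h3
    · have h2 : Tendsto (fun n : ℕ => ‖f‖ * (1 - 1 / ((n : ℝ) + 1))) atTop (𝓝 (‖f‖ * (1 - 0))) :=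
        (tendsto_one_div_add_atTop_nhds_zero_nat.const_sub 1).const_mul _
      rw [sub_zero, mul_one] at h2
      exact le_of_tendsto_of_tendsto' h2 ((f.continuous.tendsto z).comp hz) fun n => (hx2 n).le

end Pool.Agent.J6H34.RT
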