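import Pool.Agent.J6H34.RT.Top

/-!
# Small weakly open subsets of the unit ball

An extreme point of the unit ball at which the weak topology is finer than the norm topology lies in small slices
(Lin, Lin, Troyanski).  If the isometries act transitively on a dense set of such points, the space is uniformly
convex.
-/

set_option autoImplicit false

namespace Pool.Agent.J6H34.RT

open TopologicalSpace Metric Filter Topology

variable {X : Type} [NormedAddCommGroup X] [NormedSpace ℝ X]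

/-- the unit ball has small weakly open subsets -/
def SmallWeak (X : Type) [NormedAddCommGroup X] [NormedSpace ℝ X] : Prop :=
  ∀ ε : ℝ, 0 < ε → ∃ (F : Finset (StrongDual ℝ X)) (y : X) (η : ℝ), 0 < η ∧ ‖y‖ ≤ 1 ∧
    ∀ u v : X, ‖u‖ ≤ 1 → ‖v‖ ≤ 1 → (∀ f ∈ F, |f (u - y)| < η) → (∀ f ∈ F, |f (v - y)| < η) →
      ‖u - v‖ ≤ ε

/-- weak-to-norm continuity of the ball at a point -/
def PCat (d : X) : Prop :=
  ∀ ε : ℝ, 0 < ε → ∃ (F : Finset (StrongDual ℝ X)) (η : ℝ), 0 < η ∧
    ∀ u : X, ‖u‖ ≤ 1 → (∀ f ∈ F, |f (u - d)| < η) → ‖u - d‖ ≤ ε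

/-- a bound for the norms -/
lemma bound_norm (F : Finset (StrongDual ℝ X)) : ∃ M : ℝ, 0 < M ∧ ∀ f ∈ F, ‖f‖ ≤ M := by
  classical
  induction F using Finset.induction_on with
  | empty => exact ⟨1, one_pos, fun f hf => absurd hf (Finset.notMem_empty f)⟩
  | insert a s ha ih =>
    obtain ⟨M, hM, h⟩ := ih
    refine ⟨max M ‖a‖, lt_max_of_lt_left hM, fun f hf => ?_⟩
    rcases Finset.mem_insert.1 hf with rfl | hf
    · exact le_max_right _ _
    · exact (h f hf).trans (le_max_left _ _)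

/-- finitely many functionals have a common zero -/
lemma exists_zero (hinf : ¬ FiniteDimensional ℝ X) (F : Finset (StrongDual ℝ X)) :
    ∃ v : X, v ≠ 0 ∧ ∀ f ∈ F, f v = 0 := by
  by_contra hcon
  push Not at hcon
  apply hinf
  set Λ : X →ₗ[ℝ] (F → ℝ) := LinearMap.pi fun f : F => (f : StrongDual ℝ X).toLinearMap with hΛ
  refine FiniteDimensional.of_injective Λ ?_
  rw [injective_iff_map_eq_zero]
  intro v hv
  by_contra hv0
  obtain ⟨f, hf, hfv⟩ := hcon v hv0
  exact hfv (congrFun hv ⟨f, hf⟩)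

/-- a point of the sphere with the same values -/
lemma exists_sphere (hinf : ¬ FiniteDimensional ℝ X) (F : Finset (StrongDual ℝ X)) {y : X}
    (hy : ‖y‖ ≤ 1) : ∃ u : X, ‖u‖ = 1 ∧ ∀ f ∈ F, f u = f y := by
  obtain ⟨v, hv, hv2⟩ := exists_zero hinf F
  have hv0 : 0 < ‖v‖ := norm_pos_iff.2 hv
  have hc : Continuous fun t : ℝ => ‖y + t • v‖ := by fun_prop
  have h2 : (1 : ℝ) ≤ ‖y + (2 / ‖v‖) • v‖ := by
    have h3 : ‖(2 / ‖v‖) • v‖ = 2 := by
      rw [norm_smul, Real.norm_of_nonneg (by positivity), div_mul_cancel₀ _ hv0.ne']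
    have h4 := norm_sub_norm_le ((2 / ‖v‖) • v) (-y)
    rw [norm_neg, h3, sub_neg_eq_add, add_comm] at h4
    linarith
  have h1 : (1 : ℝ) ∈ Set.Icc (‖y + (0 : ℝ) • v‖) (‖y + (2 / ‖v‖) • v‖) := by
    refine ⟨?_, h2⟩
    rw [zero_smul, add_zero]
    exact hy
  obtain ⟨t, -, ht⟩ := intermediate_value_Icc (show (0 : ℝ) ≤ 2 / ‖v‖ by positivity)
    hc.continuousOn h1
  refine ⟨y + t • v, ht, fun f hf => ?_⟩
  rw [map_add, map_smul, hv2 f hf, smul_zero, add_zero]

/-- the finite union argument -/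
lemma split {F : Finset (StrongDual ℝ X)} {d : X} {η : ℝ} {A : Set X}
    (hA : ∀ u ∈ A, ‖u‖ ≤ 1 ∧ ∃ g ∈ F, η ≤ g (u - d)) {c : X} (hc : c ∈ convexHull ℝ A) :
    ∃ y z : X, ‖y‖ ≤ 1 ∧ ‖z‖ ≤ 1 ∧ (∃ g ∈ F, η ≤ g (y - d)) ∧
      (1 / ((F.card : ℝ) + 1)) • y + (1 - 1 / ((F.card : ℝ) + 1)) • z = c := by
  classical
  obtain ⟨ι, _, w, u, hw0, hw1, hu, hsum⟩ := mem_convexHull_iff_exists_fintype.1 hc
  have h1 : ∀ i, ∃ g : F, η ≤ (g : StrongDual ℝ X) (u i - d) := by
    intro i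
    obtain ⟨g, hg, h⟩ := (hA _ (hu i)).2
    exact ⟨⟨g, hg⟩, h⟩
  choose g hg using h1
  set lam : ℝ := 1 / ((F.card : ℝ) + 1) with hlam
  have hlam0 : 0 < lam := by positivity
  have hFne : F.card ≠ 0 := by
    intro h0
    have hne : Nonempty ι := by
      by_contra hcon
      rw [not_nonempty_iff] at hcon
      rw [Fintype.sum_empty] at hw1
      exact zero_ne_one hw1
    obtain ⟨i⟩ := hne
    exact Finset.card_ne_zero_of_mem (g i).2 h0
  have hlam1 : lam < 1 := by
    rw [hlam, div_lt_one (by positivity)]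
    have : (1 : ℝ) ≤ F.card := by exact_mod_cast Nat.one_le_iff_ne_zero.2 hFne
    linarith
  obtain ⟨j, hj⟩ : ∃ j : F, lam ≤ ∑ i with g i = j, w i := by
    by_contra hcon
    push Not at hcon
    have h2 : ∑ j : F, ∑ i with g i = j, w i = 1 := by
      rw [Finset.sum_fiberwise]
      exact hw1
    have h3 : ∑ j : F, ∑ i with g i = j, w i ≤ ∑ j : F, lam :=
      Finset.sum_le_sum fun j _ => (hcon j).le
    rw [h2, Finset.sum_const, Finset.card_univ, Fintype.card_coe, nsmul_eq_mul, hlam] at h3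
    have h4 : (F.card : ℝ) * (1 / ((F.card : ℝ) + 1)) < 1 := by
      rw [mul_one_div, div_lt_one (by positivity)]
      linarith
    linarith
  set W : ℝ := ∑ i with g i = j, w i with hW
  have hW0 : 0 < W := hlam0.trans_le hj
  set y : X := W⁻¹ • ∑ i with g i = j, w i • u i with hy
  set R : X := ∑ i with ¬ g i = j, w i • u i with hR
  have hsplit : W • y + R = c := by
    rw [hy, smul_smul, mul_inv_cancel₀ hW0.ne', one_smul, hR, Finset.sum_filter_add_sum_filter_not,
      hsum]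
  have hWR : ∑ i with ¬ g i = j, w i = 1 - W := by
    rw [eq_sub_iff_add_eq, add_comm, hW, Finset.sum_filter_add_sum_filter_not, hw1]
  have hRn : ‖R‖ ≤ 1 - W := by
    rw [← hWR, hR]
    refine (norm_sum_le _ _).trans (Finset.sum_le_sum fun i _ => ?_)
    rw [norm_smul, Real.norm_of_nonneg (hw0 i)]
    exact mul_le_of_le_one_right (hw0 i) (hA _ (hu i)).1
  have hyn : ‖y‖ ≤ 1 := by
    rw [hy, norm_smul, norm_inv, Real.norm_of_nonneg hW0.le, inv_mul_le_iff₀ hW0, mul_one, hW]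
    refine (norm_sum_le _ _).trans (Finset.sum_le_sum fun i _ => ?_)
    rw [norm_smul, Real.norm_of_nonneg (hw0 i)]
    exact mul_le_of_le_one_right (hw0 i) (hA _ (hu i)).1
  have hgy : η ≤ (j : StrongDual ℝ X) (y - d) := by
    have h2 : (j : StrongDual ℝ X) (y - d) =
        W⁻¹ * ∑ i with g i = j, w i * (j : StrongDual ℝ X) (u i - d) := by
      have h3 : ∑ i with g i = j, w i * (j : StrongDual ℝ X) (u i - d) =
          (j : StrongDual ℝ X) (∑ i with g i = j, w i • u i) - W * (j : StrongDual ℝ X) d := by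
        rw [map_sum, hW, Finset.sum_mul, ← Finset.sum_sub_distrib]
        refine Finset.sum_congr rfl fun i _ => ?_
        rw [map_sub, map_smul, smul_eq_mul]
        ring
      rw [h3, map_sub, hy, map_smul, smul_eq_mul, mul_sub, ← mul_assoc, inv_mul_cancel₀ hW0.ne',
        one_mul]
    rw [h2, le_inv_mul_iff₀ hW0, hW, Finset.sum_mul]
    refine Finset.sum_le_sum fun i hi => ?_
    refine mul_le_mul_of_nonneg_left ?_ (hw0 i)
    have h3 : g i = j := (Finset.mem_filter.1 hi).2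
    rw [← h3]
    exact hg i
  refine ⟨y, (1 - lam)⁻¹ • ((W - lam) • y + R), hyn, ?_, ⟨j, j.2, hgy⟩, ?_⟩
  · have h1l : 0 < 1 - lam := by linarith
    rw [norm_smul, norm_inv, Real.norm_of_nonneg h1l.le, inv_mul_le_iff₀ h1l, mul_one]
    refine (norm_add_le _ _).trans ?_
    rw [norm_smul, Real.norm_of_nonneg (sub_nonneg.2 hj)]
    have : (W - lam) * ‖y‖ ≤ (W - lam) * 1 := mul_le_mul_of_nonneg_left hyn (sub_nonneg.2 hj)
    linarith
  · have h1l : (1 - lam) ≠ 0 := by linarith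
    have h2 : (1 - lam) • ((1 - lam)⁻¹ • ((W - lam) • y + R)) = (W - lam) • y + R := by
      rw [smul_smul, mul_inv_cancel₀ h1l, one_smul]
    rw [h2, ← add_assoc, ← add_smul, add_sub_cancel]
    exact hsplit

/-- **Extreme points of weak-to-norm continuity lie in small slices.** -/
theorem denting [CompleteSpace X] {d : X}
    (hext : ∀ (y z : X) (t : ℝ), ‖y‖ ≤ 1 → ‖z‖ ≤ 1 → 0 < t → t < 1 → t • y + (1 - t) • z = d →
      y = d) (hpc : PCat d) {ε : ℝ} (hε : 0 < ε) :
    ∃ (ψ : StrongDual ℝ X) (α : ℝ), α < ψ d ∧ ∀ u : X, ‖u‖ ≤ 1 → α < ψ u → ‖u - d‖ ≤ ε := by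
  classical
  by_contra hcon
  push Not at hcon
  obtain ⟨F, η, hη, hF⟩ := hpc ε hε
  set A : Set X := {u | ‖u‖ ≤ 1 ∧ ε < ‖u - d‖} with hA
  -- `d` is in the closed convex hull
  have hd : d ∈ closure (convexHull ℝ A) := by
    by_contra hd
    obtain ⟨ψ, α, h1, h2⟩ := geometric_hahn_banach_closed_point (convex_convexHull ℝ A).closure
      isClosed_closure hd
    obtain ⟨u, hu1, hu2, hu3⟩ := hcon ψ α h2
    exact lt_asymm hu2 (h1 u (subset_closure (subset_convexHull ℝ A ⟨hu1, hu3⟩)))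
  obtain ⟨F2, hF2⟩ : ∃ F2 : Finset (StrongDual ℝ X), F2 = F ∪ F.image (fun f => -f) := ⟨_, rfl⟩
  have hA2 : ∀ u ∈ A, ‖u‖ ≤ 1 ∧ ∃ g ∈ F2, η ≤ g (u - d) := by
    rintro u ⟨hu1, hu2⟩
    refine ⟨hu1, ?_⟩
    by_contra hcon2
    push Not at hcon2
    refine absurd (hF u hu1 fun f hf => ?_) (not_le.2 hu2)
    rw [abs_lt]
    constructor
    · have := hcon2 (-f) (by
        rw [hF2]
        exact Finset.mem_union_right _ (Finset.mem_image_of_mem _ hf))
      rw [neg_apply] at this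
      linarith
    · exact hcon2 f (by
        rw [hF2]
        exact Finset.mem_union_left _ hf)
  obtain ⟨c, hc, hcd⟩ := mem_closure_iff_seq_limit.1 hd
  choose y z hy hz hg hyz using fun n => split hA2 (hc n)
  obtain ⟨lam, hlam⟩ : ∃ lam : ℝ, lam = 1 / ((F2.card : ℝ) + 1) := ⟨_, rfl⟩
  rw [← hlam] at hyz
  have hlam0 : 0 < lam := by
    rw [hlam]
    exact one_div_pos.2 (by have := Nat.cast_nonneg (α := ℝ) F2.card; linarith)
  have hF2ne : F2.card ≠ 0 := by
    intro h0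
    obtain ⟨g, hg, -⟩ := hg 0
    exact Finset.card_ne_zero_of_mem hg h0
  have hlam1 : lam < 1 := by
    have : (1 : ℝ) ≤ F2.card := by exact_mod_cast Nat.one_le_iff_ne_zero.2 hF2ne
    rw [hlam, div_lt_one (by linarith)]
    linarith
  set U : Ultrafilter ℕ := hyperfilter ℕ with hU
  have hUle : (U : Filter ℕ) ≤ atTop := Nat.hyperfilter_le_atTop
  have hcU : Tendsto c U (𝓝 d) := hcd.mono_left hUle
  -- limits of the functionals
  have hlim : ∀ f : StrongDual ℝ X, ∃ l : ℝ, Tendsto (fun n => f (y n)) U (𝓝 l) := by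
    intro f
    have h1 : ∀ n, f (y n) ∈ Set.Icc (-‖f‖) ‖f‖ := by
      intro n
      have h2 := f.le_opNorm (y n)
      have h3 : ‖f‖ * ‖y n‖ ≤ ‖f‖ * 1 := mul_le_mul_of_nonneg_left (hy n) (norm_nonneg f)
      rw [Real.norm_eq_abs, abs_le] at h2
      exact ⟨by linarith [h2.1], by linarith [h2.2]⟩
    obtain ⟨l, -, hl⟩ := (isCompact_Icc (a := -‖f‖) (b := ‖f‖)).ultrafilter_le_nhds
      (U.map fun n => f (y n)) (by
        rw [Ultrafilter.coe_map, le_principal_iff, mem_map]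
        exact Filter.univ_mem' h1)
    exact ⟨l, hl⟩
  choose l hl using hlim
  -- Cauchy
  have hcau : Cauchy (Filter.map y U) := by
    rw [Metric.cauchy_iff]
    refine ⟨inferInstance, fun e he => ?_⟩
    set e' : ℝ := lam * e / 4 with he'
    have he'0 : 0 < e' := by positivity
    obtain ⟨F', η', hη', hF'⟩ := hpc e' he'0
    obtain ⟨M, hM, hMF⟩ := bound_norm F'
    have hS1 : ∀ᶠ n in U, ∀ f ∈ F', |f (y n) - l f| < η' / 4 := by
      rw [Filter.eventually_all_finset]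
      intro f _
      have := (hl f).eventually (Metric.ball_mem_nhds (l f) (show 0 < η' / 4 by positivity))
      refine this.mono fun n hn => ?_
      rw [← Real.dist_eq]
      exact hn
    have hS2 : ∀ᶠ n in U, ‖c n - d‖ < min (η' / (4 * M)) e' := by
      have := hcU.eventually (Metric.ball_mem_nhds d
        (show 0 < min (η' / (4 * M)) e' from lt_min (by positivity) he'0))
      refine this.mono fun n hn => ?_
      rw [← dist_eq_norm]
      exact hn
    refine ⟨y '' {n | (∀ f ∈ F', |f (y n) - l f| < η' / 4) ∧ ‖c n - d‖ < min (η' / (4 * M)) e'},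
      image_mem_map (hS1.and hS2), ?_⟩
    rintro _ ⟨n, ⟨hn1, hn2⟩, rfl⟩ _ ⟨k, ⟨hk1, hk2⟩, rfl⟩
    set p : X := lam • y n + (1 - lam) • z k with hp
    have hp1 : ‖p‖ ≤ 1 := by
      rw [hp]
      refine (norm_add_le _ _).trans ?_
      rw [norm_smul, norm_smul, Real.norm_of_nonneg hlam0.le,
        Real.norm_of_nonneg (sub_nonneg.2 hlam1.le)]
      have h1 := mul_le_mul_of_nonneg_left (hy n) hlam0.le
      have h2 := mul_le_mul_of_nonneg_left (hz k) (sub_nonneg.2 hlam1.le)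
      linarith
    have hpc' : p - c k = lam • (y n - y k) := by
      rw [hp, ← hyz k, smul_sub]
      abel
    have hp2 : ‖p - d‖ ≤ e' := by
      refine hF' p hp1 fun f hf => ?_
      have h1 : f (p - d) = lam * ((f (y n) - l f) - (f (y k) - l f)) + f (c k - d) := by
        have h2 : p - d = lam • (y n - y k) + (c k - d) := by rw [← hpc']; abel
        rw [h2, map_add, map_smul, map_sub, smul_eq_mul]
        ring
      rw [h1]
      have h3 : |f (c k - d)| < η' / 4 := by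
        refine ((f.le_opNorm _)).trans_lt ?_
        have h4 : ‖f‖ * ‖c k - d‖ ≤ M * ‖c k - d‖ :=
          mul_le_mul_of_nonneg_right (hMF f hf) (norm_nonneg _)
        have h5 : M * ‖c k - d‖ < M * (η' / (4 * M)) :=
          mul_lt_mul_of_pos_left (hk2.trans_le (min_le_left _ _)) hM
        have h6 : M * (η' / (4 * M)) = η' / 4 := by field_simp
        linarith
      have h4 := hn1 f hf
      have h5 := hk1 f hf
      have h6 : |lam * ((f (y n) - l f) - (f (y k) - l f))| ≤ η' / 4 + η' / 4 := by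
        rw [abs_mul, abs_of_pos hlam0]
        have h7 := abs_sub (f (y n) - l f) (f (y k) - l f)
        have h8 : lam * |(f (y n) - l f) - (f (y k) - l f)| ≤
            1 * |(f (y n) - l f) - (f (y k) - l f)| :=
          mul_le_mul_of_nonneg_right hlam1.le (abs_nonneg _)
        linarith only [h4, h5, h7, h8]
      refine (abs_add_le _ _).trans_lt ?_
      linarith only [h6, h3, hη']
    have h1 : lam * ‖y n - y k‖ ≤ 2 * e' := by
      have h0 : lam * ‖y n - y k‖ = ‖lam • (y n - y k)‖ := by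
        rw [norm_smul, Real.norm_of_nonneg hlam0.le]
      rw [h0, ← hpc']
      have h2 : p - c k = (p - d) - (c k - d) := by abel
      rw [h2]
      refine (norm_sub_le _ _).trans ?_
      have := hk2.trans_le (min_le_right (η' / (4 * M)) e')
      linarith
    rw [dist_eq_norm]
    rw [he'] at h1
    have h2 : lam * ‖y n - y k‖ < lam * e := by
      have : 0 < lam * e := by positivity
      linarith
    exact lt_of_mul_lt_mul_left h2 hlam0.le
  obtain ⟨y', hy'⟩ := CompleteSpace.complete hcau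
  have hyU : Tendsto y U (𝓝 y') := hy'
  set z' : X := (1 - lam)⁻¹ • (d - lam • y') with hz'
  have h1l : (1 - lam) ≠ 0 := by linarith
  have hzU : Tendsto z U (𝓝 z') := by
    have h1 : z = fun n => (1 - lam)⁻¹ • (c n - lam • y n) := by
      funext n
      rw [← hyz n, add_sub_cancel_left, smul_smul, inv_mul_cancel₀ h1l, one_smul]
    rw [h1, hz']
    exact (hcU.sub (hyU.const_smul lam)).const_smul _
  have hy'n : ‖y'‖ ≤ 1 := le_of_tendsto hyU.norm (Eventually.of_forall hy)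
  have hz'n : ‖z'‖ ≤ 1 := le_of_tendsto hzU.norm (Eventually.of_forall hz)
  have hyd : y' = d := hext y' z' lam hy'n hz'n hlam0 hlam1 (by
    rw [hz', smul_smul, mul_inv_cancel₀ h1l, one_smul, add_sub_cancel])
  obtain ⟨M, hM, hMF⟩ := bound_norm F2
  rw [hyd] at hyU
  have h1 := hyU.eventually (Metric.ball_mem_nhds d (show 0 < η / M by positivity))
  obtain ⟨n, hn⟩ := h1.exists
  rw [dist_eq_norm] at hn
  obtain ⟨g, hg1, hg2⟩ := hg n
  have h2 := (le_abs_self _).trans (g.le_opNorm (y n - d))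
  have h3 : ‖g‖ * ‖y n - d‖ ≤ M * ‖y n - d‖ :=
    mul_le_mul_of_nonneg_right (hMF g hg1) (norm_nonneg _)
  have h4 : M * ‖y n - d‖ < M * (η / M) := mul_lt_mul_of_pos_left hn hM
  rw [mul_div_cancel₀ _ hM.ne'] at h4
  linarith

/-- **Small weakly open sets and homogeneity give uniform convexity.** -/
theorem uc_of_smallWeak [CompleteSpace X] (hinf : ¬ FiniteDimensional ℝ X) (D : Set X)
    (hD1 : ∀ x ∈ D, ‖x‖ = 1) (hD2 : ∀ x : X, ‖x‖ = 1 → ∀ η : ℝ, 0 < η → ∃ d ∈ D, ‖d - x‖ < η)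
    (hD3 : ∀ x ∈ D, ∀ y ∈ D, ∃ T : X ≃ₗᵢ[ℝ] X, T x = y)
    (hD4 : ∀ x ∈ D, ∀ (y z : X) (t : ℝ), ‖y‖ ≤ 1 → ‖z‖ ≤ 1 → 0 < t → t < 1 →
      t • y + (1 - t) • z = x → y = x)
    (hW : SmallWeak X) : UniformConvexSpace X := by
  classical
  -- a point of `D`
  have hne : Nontrivial X := by
    by_contra hcon
    rw [not_nontrivial_iff_subsingleton] at hcon
    exact hinf inferInstance
  obtain ⟨x₀, hx₀⟩ := exists_norm_eq X (zero_le_one (α := ℝ))
  obtain ⟨d, hd, -⟩ := hD2 x₀ hx₀ 1 one_pos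
  have hpc : PCat d := by
    intro ε hε
    obtain ⟨F, y, η, hη, hy, hF⟩ := hW ε hε
    obtain ⟨u, hu, hu2⟩ := exists_sphere hinf F hy
    obtain ⟨M, hM, hMF⟩ := bound_norm F
    obtain ⟨e, he, he2⟩ := hD2 u hu (η / (2 * M)) (by positivity)
    obtain ⟨T, hT⟩ := hD3 e he d hd
    have hey : ∀ f ∈ F, |f (e - y)| < η / 2 := by
      intro f hf
      have h1 : f (e - y) = f (e - u) := by rw [map_sub, map_sub, hu2 f hf]
      rw [h1]
      refine (f.le_opNorm _).trans_lt ?_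
      have h4 : ‖f‖ * ‖e - u‖ ≤ M * ‖e - u‖ :=
        mul_le_mul_of_nonneg_right (hMF f hf) (norm_nonneg _)
      have h5 : M * ‖e - u‖ < M * (η / (2 * M)) := mul_lt_mul_of_pos_left he2 hM
      have h6 : M * (η / (2 * M)) = η / 2 := by field_simp
      linarith
    refine ⟨F.image (fun f => ac T f), η / 2, by positivity, fun v hv hv2 => ?_⟩
    have h1 := hF (T.symm v) e (by rw [T.symm.norm_map]; exact hv) (hD1 e he).le (fun f hf => by
      have h2 := hv2 _ (Finset.mem_image_of_mem _ hf)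
      rw [ac_apply] at h2
      have h3 : f (T.symm v - y) = f (T.symm (v - d)) + f (e - y) := by
        have h8 : T.symm v - y = T.symm (v - d) + (e - y) := by
          rw [← hT, map_sub, T.symm_apply_apply]
          abel
        rw [h8, map_add]
      rw [h3]
      refine (abs_add_le _ _).trans_lt ?_
      have := hey f hf
      linarith) (fun f hf => (hey f hf).trans (by linarith))
    have h4 : v - d = T (T.symm v - e) := by rw [map_sub, T.apply_symm_apply, hT]
    rw [h4, T.norm_map]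
    exact h1
  constructor
  intro ε hε
  set e : ℝ := min ε 1 with he
  have he0 : 0 < e := lt_min hε one_pos
  have heε : e ≤ ε := min_le_left _ _
  have he1 : e ≤ 1 := min_le_right _ _
  obtain ⟨ψ, α, hα, hψ⟩ := denting (hD4 d hd) hpc (show 0 < e / 4 by positivity)
  have hdn := hD1 d hd
  have hψn : ψ d ≤ ‖ψ‖ := by
    have := (le_abs_self _).trans (ψ.le_opNorm d)
    rwa [hdn, mul_one] at this
  have hψ0 : 0 < ‖ψ‖ := by
    rw [norm_pos_iff]
    rintro rfl
    have h1 := hψ (-d) (by rw [norm_neg, hdn]) (by simpa using hα)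
    have h2 : -d - d = -((2 : ℝ) • d) := by rw [two_smul]; abel
    rw [h2, norm_neg, norm_smul, hdn, Real.norm_of_nonneg zero_le_two] at h1
    linarith
  set δ₀ : ℝ := min ((‖ψ‖ - α) / 8) (‖ψ‖ / 8) with hδ₀
  have hδ₀0 : 0 < δ₀ := lt_min (by linarith) (by positivity)
  have hδ₀1 : δ₀ ≤ (‖ψ‖ - α) / 8 := min_le_left _ _
  have hδ₀2 : δ₀ ≤ ‖ψ‖ / 8 := min_le_right _ _
  -- a point of `D` where `ψ` is almost maximal
  obtain ⟨z, hz, hψz⟩ : ∃ z : X, ‖z‖ = 1 ∧ ‖ψ‖ - δ₀ / 2 < ψ z := by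
    by_contra hcon
    push Not at hcon
    have h2 : ‖ψ‖ ≤ ‖ψ‖ - δ₀ / 2 := by
      refine ContinuousLinearMap.opNorm_le_of_unit_norm (by linarith) fun z hz => ?_
      rw [Real.norm_eq_abs, abs_le]
      constructor
      · have := hcon (-z) (by rw [norm_neg, hz])
        rw [map_neg] at this
        linarith
      · exact hcon z hz
    linarith
  have hnear : ∀ (a b : X) (r : ℝ), ‖a - b‖ < r / ‖ψ‖ → ψ b - r < ψ a := by
    intro a b r hab
    have h1 := (neg_abs_le (ψ (a - b)))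
    have h2 := ψ.le_opNorm (a - b)
    have h3 : ‖ψ‖ * ‖a - b‖ < ‖ψ‖ * (r / ‖ψ‖) := mul_lt_mul_of_pos_left hab hψ0
    rw [mul_div_cancel₀ _ hψ0.ne'] at h3
    rw [Real.norm_eq_abs] at h2
    rw [map_sub] at h1 h2
    linarith
  obtain ⟨g, hg, hgz⟩ := hD2 z hz (δ₀ / 2 / ‖ψ‖) (by positivity)
  have hψg : ‖ψ‖ - δ₀ < ψ g := by
    have := hnear g z (δ₀ / 2) hgz
    linarith
  set δ : ℝ := min 1 (δ₀ / ‖ψ‖) with hδ
  have hδ0 : 0 < δ := lt_min one_pos (by positivity)
  have hδ1 : δ ≤ 1 := min_le_left _ _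
  have hδ2 : δ * ‖ψ‖ ≤ δ₀ := by
    have : δ ≤ δ₀ / ‖ψ‖ := min_le_right _ _
    rwa [le_div_iff₀ hψ0] at this
  refine ⟨δ, hδ0, fun x hx y hy hxy => ?_⟩
  by_contra hcon
  push Not at hcon
  have hpos : 0 < ‖x + y‖ := by linarith
  set m : X := ‖x + y‖⁻¹ • (x + y) with hm
  have hmn : ‖m‖ = 1 := by rw [hm, norm_smul, norm_inv, norm_norm, inv_mul_cancel₀ hpos.ne']
  obtain ⟨g', hg', hgm⟩ := hD2 m hmn (δ₀ / ‖ψ‖) (by positivity)
  obtain ⟨T, hT⟩ := hD3 g hg g' hg'
  have h1 : ‖ψ‖ - 2 * δ₀ < ψ (T.symm m) := by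
    have h2 : ‖T.symm m - g‖ < δ₀ / ‖ψ‖ := by
      have h3 : T.symm m - g = -(T.symm (g' - m)) := by
        rw [map_sub, ← hT, T.symm_apply_apply]; abel
      rw [h3, norm_neg, T.symm.norm_map]
      exact hgm
    have := hnear _ _ δ₀ h2
    linarith
  have h2 : ψ (T.symm x) + ψ (T.symm y) = ‖x + y‖ * ψ (T.symm m) := by
    rw [← map_add, ← map_add, hm, map_smul, map_smul, smul_eq_mul, ← mul_assoc,
      mul_inv_cancel₀ hpos.ne', one_mul]
  have hle : ∀ v : X, ‖v‖ = 1 → ψ (T.symm v) ≤ ‖ψ‖ := by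
    intro v hv
    have := (le_abs_self _).trans (ψ.le_opNorm (T.symm v))
    rwa [T.symm.norm_map, hv, mul_one] at this
  have h3 : (2 - δ) * (‖ψ‖ - 2 * δ₀) ≤ ‖x + y‖ * ψ (T.symm m) :=
    mul_le_mul hcon.le h1.le (by linarith) hpos.le
  have h4 : 2 * ‖ψ‖ - 5 * δ₀ ≤ (2 - δ) * (‖ψ‖ - 2 * δ₀) := by
    have : 0 ≤ δ * δ₀ := by positivity
    nlinarith
  have hx2 := hle x hx
  have hy2 := hle y hy
  have h5 := hψ (T.symm x) (by rw [T.symm.norm_map, hx]) (by linarith)
  have h6 := hψ (T.symm y) (by rw [T.symm.norm_map, hy]) (by linarith)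
  have h7 : x - y = T ((T.symm x - d) - (T.symm y - d)) := by
    rw [sub_sub_sub_cancel_right, map_sub, T.apply_symm_apply, T.apply_symm_apply]
  rw [h7, T.norm_map] at hxy
  have h8 := norm_sub_le (T.symm x - d) (T.symm y - d)
  linarith

end Pool.Agent.J6H34.RT
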