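import Pool.Agent.J6H34.RT.Weak

/-!
# Small weakly open subsets of the balls of a space with a transitive norm and of its dual space
-/

set_option autoImplicit false

namespace Pool.Agent.J6H34.RT

open TopologicalSpace Metric Filter Topology

variable {E : Type} [NormedAddCommGroup E] [NormedSpace ℝ E]

/-- the Bishop-Phelps theorem: norm attaining functionals of norm one are dense in the unit sphere -/
theorem na_dense [CompleteSpace E] {f₀ : StrongDual ℝ E} (hf₀ : ‖f₀‖ = 1) {κ : ℝ} (hκ : 0 < κ) :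
    ∃ f₁ : StrongDual ℝ E, (‖f₁‖ = 1 ∧ Att f₁) ∧ ‖f₁ - f₀‖ < κ := by
  set η : ℝ := min (κ / 4) (1 / 2) with hη
  have hη0 : 0 < η := lt_min (by positivity) (by norm_num)
  have hη1 : η ≤ κ / 4 := min_le_left _ _
  have hη2 : η ≤ 1 / 2 := min_le_right _ _
  obtain ⟨Φ, hΦ, x₁, hx₁, -, h2⟩ := bp_set (convex_closedBall (0 : E) 1) isClosed_closedBall f₀
    hη0 (δ := 1) (y₀ := 0) (by rw [mem_closedBall_zero_iff, norm_zero]; exact zero_le_one)
    (fun z hz => by
      have := le_of_norm hf₀.le (mem_closedBall_zero_iff.1 hz)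
      rw [map_zero]
      linarith)
  have hΦn : |‖Φ‖ - 1| ≤ η := by
    rw [← hf₀]
    exact (abs_norm_sub_norm_le _ _).trans hΦ
  have hΦn1 := (abs_le.1 hΦn).1
  have hΦ0 : 0 < ‖Φ‖ := by linarith
  have hΦx : Φ x₁ = ‖Φ‖ := by
    refine le_antisymm ?_ ?_
    · refine ((le_abs_self _).trans (Φ.le_opNorm _)).trans ?_
      have := mem_closedBall_zero_iff.1 hx₁
      nlinarith
    · refine ContinuousLinearMap.opNorm_le_of_unit_norm ?_ fun z hz => ?_
      · have := h2 0 (by rw [mem_closedBall_zero_iff, norm_zero]; exact zero_le_one)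
        rwa [map_zero] at this
      · rw [Real.norm_eq_abs, abs_le]
        constructor
        · have := h2 (-z) (by rw [mem_closedBall_zero_iff, norm_neg, hz])
          rw [map_neg] at this
          linarith
        · exact h2 z (by rw [mem_closedBall_zero_iff, hz])
  set f₁ : StrongDual ℝ E := ‖Φ‖⁻¹ • Φ with hf₁
  have hf₁n : ‖f₁‖ = 1 := by
    rw [hf₁, norm_smul, norm_inv, norm_norm, inv_mul_cancel₀ hΦ0.ne']
  have hf₁x : f₁ x₁ = 1 := by
    rw [hf₁, smul_apply, hΦx, smul_eq_mul, inv_mul_cancel₀ hΦ0.ne']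
  have hx₁n : ‖x₁‖ = 1 := norm_of_att hf₁n.le (mem_closedBall_zero_iff.1 hx₁) hf₁x
  refine ⟨f₁, ⟨hf₁n, x₁, hx₁n, by rw [hf₁x, hf₁n]⟩, ?_⟩
  have e1 : f₁ - f₀ = (f₁ - Φ) + (Φ - f₀) := by abel
  have e2 : f₁ - Φ = (‖Φ‖⁻¹ - 1) • Φ := by
    ext v
    simp only [hf₁, sub_apply, smul_apply, smul_eq_mul]
    ring
  have e3 : ‖f₁ - Φ‖ ≤ η := by
    rw [e2, norm_smul, Real.norm_eq_abs]
    have e4 : |‖Φ‖⁻¹ - 1| * ‖Φ‖ = |‖Φ‖ - 1| := by
      rw [← abs_of_pos hΦ0, ← abs_mul, abs_of_pos hΦ0, sub_mul, inv_mul_cancel₀ hΦ0.ne',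
        one_mul, abs_sub_comm]
    rw [e4]
    exact hΦn
  rw [e1]
  refine (norm_add_le _ _).trans_lt ?_
  linarith

/-- the unit ball of a uniformly convex space has small weakly open subsets -/
theorem smallWeak_of_uc [Nontrivial E] (hu : UniformConvexSpace E) : SmallWeak E := by
  intro ε hε
  obtain ⟨δ, hδ, hδ2⟩ := slices_uc hu (half_pos hε)
  obtain ⟨x, hx⟩ := exists_norm_eq E (zero_le_one (α := ℝ))
  obtain ⟨f, hf, hfx⟩ := exists_supp hx
  have key : ∀ u : E, ‖u‖ ≤ 1 → (∀ g ∈ ({f} : Finset (StrongDual ℝ E)), |g (u - x)| < δ) →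
      ‖x - u‖ < ε / 2 := by
    intro u hu1 hu2
    have h1 := (abs_lt.1 (hu2 f (Finset.mem_singleton_self _))).1
    rw [map_sub, hfx] at h1
    exact hδ2 f x u hf hx hfx hu1 (by linarith)
  refine ⟨{f}, x, δ, hδ, hx.le, fun u v hu1 hv1 hu2 hv2 => ?_⟩
  have h1 := key u hu1 hu2
  have h2 := key v hv1 hv2
  have h3 : u - v = (x - v) - (x - u) := by abel
  rw [h3]
  refine (norm_sub_le _ _).trans ?_
  linarith

/-- the space -/
theorem uc_of_smallWeakE [CompleteSpace E] [SeparableSpace E] (htr : Tr E)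
    (hinf : ¬ FiniteDimensional ℝ E) (hW : SmallWeak E) : UniformConvexSpace E := by
  refine uc_of_smallWeak hinf {x | ‖x‖ = 1} (fun x hx => hx)
    (fun x hx η hη => ⟨x, hx, by rw [sub_self, norm_zero]; exact hη⟩)
    (fun x hx y hy => htr x y hx hy) (fun x hx y z t hy hz ht0 ht1 h => ?_) hW
  have hx' : ‖x‖ = 1 := hx
  obtain ⟨f, hf, hfx⟩ := exists_supp hx'
  have h1 : t * f y + (1 - t) * f z = 1 := by
    have h0 := congrArg f h
    rw [map_add, map_smul, map_smul, smul_eq_mul, smul_eq_mul, hfx] at h0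
    exact h0
  have h2 := le_of_norm hf.le hy
  have h3 := le_of_norm hf.le hz
  have h4 : f y = 1 := by
    by_contra hne
    have h5 : f y < 1 := lt_of_le_of_ne h2 hne
    nlinarith
  exact strict htr hf.le hy hx'.le h4 hfx

/-- the dual space is infinite dimensional -/
lemma dual_inf (hinf : ¬ FiniteDimensional ℝ E) : ¬ FiniteDimensional ℝ (StrongDual ℝ E) := by
  intro h
  apply hinf
  have h1 : FiniteDimensional ℝ (StrongDual ℝ (StrongDual ℝ E)) := inferInstance
  exact FiniteDimensional.of_injective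
    (NormedSpace.inclusionInDoubleDualLi (E := E) ℝ).toLinearMap
    (NormedSpace.inclusionInDoubleDualLi (E := E) ℝ).injective

/-- the dual space -/
theorem uc_of_smallWeakDual [CompleteSpace E] [SeparableSpace E] (htr : Tr E)
    (hinf : ¬ FiniteDimensional ℝ E) (hW : SmallWeak (StrongDual ℝ E)) :
    UniformConvexSpace (StrongDual ℝ E) := by
  refine uc_of_smallWeak (dual_inf hinf) {f | ‖f‖ = 1 ∧ Att f} (fun f hf => hf.1)
    (fun f hf η hη => na_dense hf hη) ?_ ?_ hW
  · rintro f ⟨hf, x, hx, hfx⟩ g ⟨hg, y, hy, hgy⟩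
    obtain ⟨T, hT⟩ := htr x y hx hy
    refine ⟨acE T, ?_⟩
    exact Pool.Agent.H821.Rot.unique_support htr hy _ _ (show ‖ac T f‖ ≤ 1 by rw [ac_norm, hf])
      (show ac T f y = 1 by rw [ac_apply, ← hT, T.symm_apply_apply, hfx, hf]) hg.le
      (by rw [hgy, hg])
  · rintro f ⟨hf, x, hx, hfx⟩ y z t hy hz ht0 ht1 h
    have h1 : t * y x + (1 - t) * z x = 1 := by
      have h0 : (t • y + (1 - t) • z) x = f x := by rw [h]
      have h0' : (t • y + (1 - t) • z) x = t * y x + (1 - t) * z x := rfl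
      rw [← h0', h0, hfx, hf]
    have h2 := le_of_norm hy hx.le
    have h3 := le_of_norm hz hx.le
    have h4 : y x = 1 := by
      by_contra hne
      have h5 : y x < 1 := lt_of_le_of_ne h2 hne
      nlinarith
    exact Pool.Agent.H821.Rot.unique_support htr hx _ _ hy h4 hf.le (by rw [hfx, hf])

/-- functionals on a finite dimensional space attain their norm -/
theorem att_of_fin [FiniteDimensional ℝ E] [Nontrivial E] (f : StrongDual ℝ E) : Att f := by
  have : ProperSpace E := FiniteDimensional.proper_real E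
  have h1 : (sphere (0 : E) 1).Nonempty := by
    obtain ⟨x, hx⟩ := exists_norm_eq E (zero_le_one (α := ℝ))
    exact ⟨x, mem_sphere_zero_iff_norm.2 hx⟩
  obtain ⟨x, hx, hx2⟩ := (isCompact_sphere (0 : E) 1).exists_isMaxOn h1 f.continuous.continuousOn
  have hxn := mem_sphere_zero_iff_norm.1 hx
  have hmax : ∀ z : E, ‖z‖ = 1 → f z ≤ f x := fun z hz => hx2 (mem_sphere_zero_iff_norm.2 hz)
  have h0 : 0 ≤ f x := by
    have h2 := hmax (-x) (by rw [norm_neg, hxn])
    rw [map_neg] at h2
    linarith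
  refine ⟨x, hxn, le_antisymm ?_ ?_⟩
  · have := (le_abs_self _).trans (f.le_opNorm x)
    rwa [hxn, mul_one] at this
  · refine ContinuousLinearMap.opNorm_le_of_unit_norm h0 fun z hz => ?_
    rw [Real.norm_eq_abs, abs_le]
    constructor
    · have := hmax (-z) (by rw [norm_neg, hz])
      rw [map_neg] at this
      linarith
    · exact hmax z hz

/-- the conclusion for the space -/
theorem att_of_smallWeak [CompleteSpace E] [SeparableSpace E] [Nontrivial E] (htr : Tr E)
    (hW : SmallWeak E) (f : StrongDual ℝ E) : Att f := by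
  by_cases hinf : FiniteDimensional ℝ E
  · exact att_of_fin f
  · exact att_of_uc (uc_of_smallWeakE htr hinf hW) f

/-- the conclusion for the dual space -/
theorem att_of_smallWeakDual [CompleteSpace E] [SeparableSpace E] [Nontrivial E] (htr : Tr E)
    (hW : SmallWeak (StrongDual ℝ E)) (f : StrongDual ℝ E) : Att f := by
  by_cases hinf : FiniteDimensional ℝ E
  · exact att_of_fin f
  · exact att_of_refl (refl_of_dual (refl_of_uc (uc_of_smallWeakDual htr hinf hW))) f

end Pool.Agent.J6H34.RT
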